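import Pool.Agent.H77.Tal.Chk

/-!
# M6R1c, part 5: the constants, the kernel checks and the final theorem
-/

set_option autoImplicit false
set_option maxRecDepth 100000

open Finset Real

namespace Pool.Agent.H58.Tal.R1c

def xp9 : List ℕ := [1000000000000, 810000000000, 656100000000, 531441000000, 430467210000,
  348678440100, 282429536481, 228767924550, 185302018886, 150094635297, 121576654591,
  98477090219, 79766443077, 64610818893, 52334763303, 42391158276, 34336838203, 27812838945,
  22528399545, 18248003632, 14780882942, 11972515183, 9697737298, 7855167212, 6362685442,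
  5153775208, 4174557918]

def lo9 : List ℕ := [1000000000000, 675000000000, 459270000000, 320973492857, 229240871357,
  166465024396, 122444965430, 90988512381, 68173745590, 51428706831, 39018845885, 29747629930,
  22774322287, 17499154259, 13488819735, 10426928011, 8080360578, 6276018519, 4884505938,
  3808530190, 2974561811, 2326778984, 1822632878, 1429575402, 1122628560, 882568241]

def ko9 : List ℕ := [0, 337500000000, 371790000000, 331693698214, 277053479325, 225116461283,
  180506146385, 143750031568, 114065422075, 90341256761, 71488209658, 56552564308, 44739617401,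
  35403551270, 28026685457, 22197275899, 17589301543, 13945269482, 11062082186, 8779640801,
  6971756151, 5538947738, 4402760747, 3501291086, 2785665764, 2217276034]

def y19 : List ℕ := [0, 1350000000000, 590490000000, 328987285715, 203276182500, 133131768039,
  90522287334, 63183522019, 44962989877, 32476616995, 23736394468, 17515687984, 13028519036,
  9756049577, 7347491400, 5560990656, 4227072885, 3225354433, 2469329080, 1896216302,
  1460062828, 1126980942, 871816788, 675791444, 524813340, 408259840]

def w19 : List ℕ := [0, 270000000000, 557685000000, 447507064286, 335747341768, 249833385339,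
  186464808886, 139927271260, 105597021599, 80106159321, 61053089954, 46724515188, 35889657146,
  27656703995, 21373856985, 16560892875, 12861417972, 10009213315, 7804265290, 6095526175,
  4768402715, 3735601462, 2930380730, 2301543463, 1809699734, 1424461992]

def os9 : List ℕ := [83333333334, 90000000000, 29160000000, 15184028572, 9110417143,
  5870007410, 3950063448, 2737393969, 1937798891, 1394067821, 1015677984, 747583156, 554896996,
  414785504, 311914299, 235768400, 179012516, 136455487, 104378686, 80090569, 61625529,
  47536930, 36752838, 28474208, 22102251, 17186126]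

def xp4 : List ℕ := [1000000000000, 160000000000, 25600000000, 4096000000, 655360000,
  104857600, 16777216, 2684355, 429497, 68720, 10996, 1760, 282, 46, 8, 2, 1]

def lo4 : List ℕ := [1000000000000, 133333333333, 17920000000, 2473853968, 349005206, 50060803,
  7273621, 1067655, 158014, 23546, 3528, 531, 80, 12, 1, 0]

def ko4 : List ℕ := [0, 66666666666, 14506666666, 2556478306, 421796977, 67698971, 10722641,
  1686757, 264383, 41361, 6465, 1010, 157, 24, 3, 0]

def y14 : List ℕ := [0, 266666666667, 23040000000, 2535619048, 309475556, 40036539, 5377313,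
  741394, 104217, 14870, 2147, 313, 46, 7, 2, 1]

def w14 : List ℕ := [0, 53333333334, 21760000000, 3449092064, 511154794, 75132060, 11076605,
  1641902, 244755, 36676, 5522, 835, 127, 20, 3, 1]

def os4 : List ℕ := [83333333334, 17777777778, 1137777778, 117028572, 13870053, 1765280,
  234647, 32121, 4492, 639, 92, 14, 2, 1, 1, 1]

def bp9 : List ℕ := [0, 12681, 25362, 38043, 50724, 63405, 76086, 88767, 101448, 114129,
  127765, 141401, 155037, 168673, 183336, 196972, 210608, 224244, 236925, 249606, 261399,
  273192, 284985, 295952, 306919, 317886, 328085, 338284, 348483, 357968, 367453, 376938,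
  386423, 395244, 404065, 412886, 421089, 429292, 437495, 445698, 453326, 460954, 468582,
  476210, 483304, 490398, 497492, 504089, 510686, 517283, 523880, 530015, 536150, 542285,
  548420, 554125, 559830, 565535, 571240, 576545, 581850, 587155, 592460, 597393, 602326,
  607259, 612192, 616779, 621366, 625953, 630218, 634483, 638748, 643013, 646979, 650945,
  654911, 658877, 662565, 666253, 669941, 673370, 676799, 680228, 683657, 686845, 690033,
  693221, 696185, 699149, 702113, 704869, 707625, 710381, 713137, 715700, 718263, 720826,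
  723209, 725592, 727975, 730191, 732407, 734623, 736839, 738899, 740959, 743019, 744934,
  746849, 748764, 750544, 752324, 754104, 755759, 757414, 759069, 760608, 762147, 763686,
  765117, 766548, 767979, 769410, 770000]

def bp4 : List ℕ := [770000, 786954, 802721, 817384, 831020, 843701, 855494, 866461, 876660,
  886145, 894348, 901976, 909070, 915667, 921372, 926677, 931264, 935529, 939495, 942924,
  946112, 949076, 951639, 954022, 956082, 957997, 959777, 961316, 962747, 963983, 965132,
  966000]

/-- constants for `t = 9/10` -/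
def k9 : Kc := ⟨xp9, lo9, ko9, y19, w19, os9, 2932330172562, 2641230454543, 246733181124, 81, 100, 25⟩
/-- constants for `t = 4/10` -/
def k4 : Kc := ⟨xp4, lo4, ko4, y14, w14, os4, 292598138112, 79141818692, 102381924796, 4, 25, 15⟩

theorem UBn_rat {f : ℕ → ℝ} (g : ℕ → ℚ) (hf : ∀ i, f i = (g i : ℝ)) {k : ℕ} {L : List ℕ}
    (hl : k ≤ L.length) (h : ∀ i < k, g i * 1000000000000 ≤ ((L.getD i 0 : ℕ) : ℚ)) :
    UBn f 0 k L := by
  refine UBn_of hl fun i hi => ?_
  unfold Ub
  rw [zero_add, hf, S_cast]
  exact_mod_cast h i hi

theorem LBn_rat {f : ℕ → ℝ} (g : ℕ → ℚ) (hf : ∀ i, f i = (g i : ℝ)) {k : ℕ} {L : List ℕ}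
    (hl : k ≤ L.length) (h : ∀ i < k, ((L.getD i 0 : ℕ) : ℚ) ≤ g i * 1000000000000) :
    LBn f 0 k L := by
  refine LBn_of hl fun i hi => ?_
  unfold Lb
  rw [zero_add, hf, S_cast]
  exact_mod_cast h i hi

theorem log54_lo : 0.22314355131 ≤ Real.log (5 / 4) := by
  have h := Real.sum_range_le_log_div (x := 1 / 9) (by norm_num) (by norm_num) 6
  rw [show ((1 : ℝ) + 1 / 9) / (1 - 1 / 9) = 5 / 4 by norm_num] at h
  norm_num [Finset.sum_range_succ] at h
  linarith

theorem log54_hi : Real.log (5 / 4) ≤ 0.22314355132 := by
  have h := Real.log_div_le_sum_range_add (x := 1 / 9) (by norm_num) (by norm_num) 6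
  rw [show ((1 : ℝ) + 1 / 9) / (1 - 1 / 9) = 5 / 4 by norm_num] at h
  norm_num [Finset.sum_range_succ] at h
  linarith

theorem log1916_lo : 0.17185025692 ≤ Real.log (19 / 16) := by
  have h := Real.sum_range_le_log_div (x := 3 / 35) (by norm_num) (by norm_num) 6
  rw [show ((1 : ℝ) + 3 / 35) / (1 - 3 / 35) = 19 / 16 by norm_num] at h
  norm_num [Finset.sum_range_succ] at h
  linarith

theorem log1916_hi : Real.log (19 / 16) ≤ 0.17185025693 := by
  have h := Real.log_div_le_sum_range_add (x := 3 / 35) (by norm_num) (by norm_num) 6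
  rw [show ((1 : ℝ) + 3 / 35) / (1 - 3 / 35) = 19 / 16 by norm_num] at h
  norm_num [Finset.sum_range_succ] at h
  linarith

theorem log2521_lo : 0.17435338714 ≤ Real.log (25 / 21) := by
  have h := Real.sum_range_le_log_div (x := 2 / 23) (by norm_num) (by norm_num) 6
  rw [show ((1 : ℝ) + 2 / 23) / (1 - 2 / 23) = 25 / 21 by norm_num] at h
  norm_num [Finset.sum_range_succ] at h
  linarith

theorem log2521_hi : Real.log (25 / 21) ≤ 0.17435338715 := by
  have h := Real.log_div_le_sum_range_add (x := 2 / 23) (by norm_num) (by norm_num) 6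
  rw [show ((1 : ℝ) + 2 / 23) / (1 - 2 / 23) = 25 / 21 by norm_num] at h
  norm_num [Finset.sum_range_succ] at h
  linarith

theorem log73_lo : 0.84729786036 ≤ Real.log (7 / 3) := by
  have h := Real.sum_range_le_log_div (x := 2 / 5) (by norm_num) (by norm_num) 14
  rw [show ((1 : ℝ) + 2 / 5) / (1 - 2 / 5) = 7 / 3 by norm_num] at h
  norm_num [Finset.sum_range_succ] at h
  linarith

theorem log73_hi : Real.log (7 / 3) ≤ 0.84729786041 := by
  have h := Real.log_div_le_sum_range_add (x := 2 / 5) (by norm_num) (by norm_num) 14
  rw [show ((1 : ℝ) + 2 / 5) / (1 - 2 / 5) = 7 / 3 by norm_num] at h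
  norm_num [Finset.sum_range_succ] at h
  linarith

theorem tla9 : (9 / 10 : ℝ) ^ 2 * la (9 / 10) = 2 * Real.log 2 + 2 * Real.log (5 / 4) -
    Real.log (19 / 16) := by
  have h1 : (9 / 10 : ℝ) ^ 2 * la (9 / 10) = - Real.log (1 - (9 / 10) ^ 2) := by
    unfold la
    field_simp
  rw [h1, show (1 : ℝ) - (9 / 10) ^ 2 = (19 / 16) / (2 ^ 2 * (5 / 4) ^ 2) by norm_num,
    Real.log_div (by norm_num) (by norm_num), Real.log_mul (by norm_num) (by norm_num),
    Real.log_pow, Real.log_pow]
  push_cast
  ring

theorem oo9 : oo (9 / 10) = (4 * Real.log 2 + Real.log (19 / 16)) / (9 / 5) := by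
  unfold oo
  rw [← Real.log_div (by norm_num) (by norm_num),
    show ((1 : ℝ) + 9 / 10) / (1 - 9 / 10) = 2 ^ 4 * (19 / 16) by norm_num,
    Real.log_mul (by norm_num) (by norm_num), Real.log_pow]
  norm_num

theorem tla4 : (4 / 10 : ℝ) ^ 2 * la (4 / 10) = Real.log (25 / 21) := by
  have h1 : (4 / 10 : ℝ) ^ 2 * la (4 / 10) = - Real.log (1 - (4 / 10) ^ 2) := by
    unfold la
    field_simp
  rw [h1, ← Real.log_inv]
  norm_num

theorem oo4 : oo (4 / 10) = Real.log (7 / 3) / (4 / 5) := by
  unfold oo
  rw [← Real.log_div (by norm_num) (by norm_num),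
    show ((1 : ℝ) + 4 / 10) / (1 - 4 / 10) = 7 / 3 by norm_num]
  norm_num

theorem kk_eq {t : ℝ} : t ^ 2 * kk t + 2 - 2 * oo t + t ^ 2 * oo t * la t =
    t ^ 2 * oo t ^ 2 - t ^ 2 * la t + (t ^ 2 * la t) ^ 2 / 4 + 2 - 2 * oo t +
      oo t * (t ^ 2 * la t) := by
  unfold kk
  ring

theorem k9ok : KOK k9 (9 / 10) where
  t0 := by norm_num
  xN := by decide
  xND := by decide
  x := by norm_num [k9]
  xp := UBn_rat (fun i => (81 / 100) ^ i) (fun i => by push_cast; norm_num) (by decide)
    (by decide +kernel)
  lo := LBn_rat (fun i => loC i * (81 / 100) ^ i) (fun i => by push_cast; norm_num) (by decide)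
    (by decide +kernel)
  ko := LBn_rat (fun i => koC i * (81 / 100) ^ i) (fun i => by push_cast; norm_num) (by decide)
    (by decide +kernel)
  y1 := UBn_rat (fun i => y1C i * (81 / 100) ^ i) (fun i => by unfold fY; push_cast; norm_num)
    (by decide) (by decide +kernel)
  w1 := UBn_rat (fun i => w1C i * (81 / 100) ^ i) (fun i => by unfold fW; push_cast; norm_num)
    (by decide) (by decide +kernel)
  os := UBn_rat (fun i => (oC i + (if i = 0 then 0 else oC (i - 1))) / 12 * (81 / 100) ^ i)
    (fun i => by unfold fO; split_ifs <;> (push_cast; norm_num)) (by decide) (by decide +kernel)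
  y0 := fun i hi => by
    have h : ∀ i ≤ 25, 0 ≤ y1C i := by decide +kernel
    unfold fY
    have := h i hi
    positivity
  w0 := fun i hi => by
    have h : ∀ i ≤ 25, 0 ≤ w1C i := by decide +kernel
    unfold fW
    have := h i hi
    positivity
  yX := by
    have h1 := Real.log_two_lt_d9
    have h2 := log54_hi
    have h3 := log1916_lo
    have h4 := log1916_hi
    rw [tla9, oo9]
    unfold Ub k9
    rw [S_cast]
    norm_num
    linarith
  yX0 := by
    have h1 := Real.log_two_gt_d9
    have h2 := log54_lo
    have h3 := log1916_lo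
    have h4 := log1916_hi
    rw [tla9, oo9]
    linarith
  wX := by
    have a1 := Real.log_two_lt_d9
    have a2 := Real.log_two_gt_d9
    have b1 := log54_lo
    have b2 := log54_hi
    have c1 := log1916_lo
    have c2 := log1916_hi
    rw [kk_eq]
    have hL0 : 16607312053216 / 10000000000000 ≤ (9 / 10 : ℝ) ^ 2 * la (9 / 10) := by rw [tla9]; linarith
    have hL1 : (9 / 10 : ℝ) ^ 2 * la (9 / 10) ≤ 16607312083216 / 10000000000000 := by rw [tla9]; linarith
    have ho0 : 16357994313702 / 10000000000000 ≤ oo (9 / 10) := by rw [oo9]; linarith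
    have ho1 : oo (9 / 10) ≤ 16357994343702 / 10000000000000 := by rw [oo9]; linarith
    generalize (9 / 10 : ℝ) ^ 2 * la (9 / 10) = L at *
    generalize oo (9 / 10) = o at *
    unfold Ub k9
    rw [S_cast]
    have e1 : o ^ 2 ≤ (16357994343702 / 10000000000000) ^ 2 := by gcongr
    have e2 : L ^ 2 ≤ (16607312083216 / 10000000000000) ^ 2 := by gcongr
    have e3 : o * L ≤ (16357994343702 / 10000000000000) * (16607312083216 / 10000000000000) := by gcongr
    norm_num at e1 e2 e3 ⊢
    linarith
  wX0 := by
    have a1 := Real.log_two_lt_d9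
    have a2 := Real.log_two_gt_d9
    have b1 := log54_lo
    have b2 := log54_hi
    have c1 := log1916_lo
    have c2 := log1916_hi
    rw [kk_eq]
    have hL0 : 1.66 ≤ (9 / 10 : ℝ) ^ 2 * la (9 / 10) := by rw [tla9]; linarith
    have hL1 : (9 / 10 : ℝ) ^ 2 * la (9 / 10) ≤ 1.67 := by rw [tla9]; linarith
    have ho0 : 1.63 ≤ oo (9 / 10) := by rw [oo9]; linarith
    have ho1 : oo (9 / 10) ≤ 1.64 := by rw [oo9]; linarith
    generalize (9 / 10 : ℝ) ^ 2 * la (9 / 10) = L at *
    generalize oo (9 / 10) = o at *
    nlinarith
  oX := by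
    have h1 := Real.log_two_lt_d9
    have h4 := log1916_hi
    rw [oo9]
    unfold Ub k9
    rw [S_cast]
    norm_num
    linarith

theorem k4ok : KOK k4 (4 / 10) where
  t0 := by norm_num
  xN := by decide
  xND := by decide
  x := by norm_num [k4]
  xp := UBn_rat (fun i => (4 / 25) ^ i) (fun i => by push_cast; norm_num) (by decide)
    (by decide +kernel)
  lo := LBn_rat (fun i => loC i * (4 / 25) ^ i) (fun i => by push_cast; norm_num) (by decide)
    (by decide +kernel)
  ko := LBn_rat (fun i => koC i * (4 / 25) ^ i) (fun i => by push_cast; norm_num) (by decide)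
    (by decide +kernel)
  y1 := UBn_rat (fun i => y1C i * (4 / 25) ^ i) (fun i => by unfold fY; push_cast; norm_num)
    (by decide) (by decide +kernel)
  w1 := UBn_rat (fun i => w1C i * (4 / 25) ^ i) (fun i => by unfold fW; push_cast; norm_num)
    (by decide) (by decide +kernel)
  os := UBn_rat (fun i => (oC i + (if i = 0 then 0 else oC (i - 1))) / 12 * (4 / 25) ^ i)
    (fun i => by unfold fO; split_ifs <;> (push_cast; norm_num)) (by decide) (by decide +kernel)
  y0 := fun i hi => by
    have h : ∀ i ≤ 15, 0 ≤ y1C i := by decide +kernel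
    unfold fY
    have := h i hi
    positivity
  w0 := fun i hi => by
    have h : ∀ i ≤ 15, 0 ≤ w1C i := by decide +kernel
    unfold fW
    have := h i hi
    positivity
  yX := by
    have h1 := log2521_hi
    have h2 := log73_hi
    rw [tla4, oo4]
    unfold Ub k4
    rw [S_cast]
    norm_num
    linarith
  yX0 := by
    have h1 := log2521_lo
    have h2 := log73_lo
    rw [tla4, oo4]
    linarith
  wX := by
    have a1 := log2521_lo
    have a2 := log2521_hi
    have b1 := log73_lo
    have b2 := log73_hi
    rw [kk_eq]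
    have hL0 : 1743533856447 / 10000000000000 ≤ (4 / 10 : ℝ) ^ 2 * la (4 / 10) := by rw [tla4]; linarith
    have hL1 : (4 / 10 : ℝ) ^ 2 * la (4 / 10) ≤ 1743533886447 / 10000000000000 := by rw [tla4]; linarith
    have ho0 : 10591223239840 / 10000000000000 ≤ oo (4 / 10) := by rw [oo4]; linarith
    have ho1 : oo (4 / 10) ≤ 10591223269840 / 10000000000000 := by rw [oo4]; linarith
    generalize (4 / 10 : ℝ) ^ 2 * la (4 / 10) = L at *
    generalize oo (4 / 10) = o at *
    unfold Ub k4
    rw [S_cast]
    have e1 : o ^ 2 ≤ (10591223269840 / 10000000000000) ^ 2 := by gcongr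
    have e2 : L ^ 2 ≤ (1743533886447 / 10000000000000) ^ 2 := by gcongr
    have e3 : o * L ≤ (10591223269840 / 10000000000000) * (1743533886447 / 10000000000000) := by gcongr
    norm_num at e1 e2 e3 ⊢
    linarith
  wX0 := by
    have a1 := log2521_lo
    have a2 := log2521_hi
    have b1 := log73_lo
    have b2 := log73_hi
    rw [kk_eq]
    have hL0 : 0.174 ≤ (4 / 10 : ℝ) ^ 2 * la (4 / 10) := by rw [tla4]; linarith
    have hL1 : (4 / 10 : ℝ) ^ 2 * la (4 / 10) ≤ 0.175 := by rw [tla4]; linarith
    have ho0 : 1.059 ≤ oo (4 / 10) := by rw [oo4]; linarith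
    have ho1 : oo (4 / 10) ≤ 1.06 := by rw [oo4]; linarith
    generalize (4 / 10 : ℝ) ^ 2 * la (4 / 10) = L at *
    generalize oo (4 / 10) = o at *
    nlinarith
  oX := by
    have h4 := log73_hi
    rw [oo4]
    unfold Ub k4
    rw [S_cast]
    norm_num
    linarith

theorem chk9 : chkAll k9 bp9 = true := by decide +kernel

theorem chk4 : chkAll k4 bp4 = true := by decide +kernel

end Pool.Agent.H58.Tal.R1c

namespace Pool.Agent.H58.Tal

open R1c

/-- MODULE M6R1c -/
theorem m6r1c : M6R1c := by
  intro e he
  constructor
  · intro h77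
    have h := chkAll_sound k9ok bp9.tail 0 chk9 (e := e) he
      (by unfold Lb; simpa using mul_nonneg he.le S_pos.le)
      (by
        have h1 : bp9.tail.getLastD 0 = 770000 := by decide
        rw [h1]
        unfold Ub U6
        rw [S_cast]
        norm_num
        linarith) (by decide)
    exact h
  · intro h77 h966
    have h := chkAll_sound k4ok bp4.tail 770000 chk4 (e := e) he
      (by
        unfold Lb U6
        rw [S_cast]
        norm_num
        linarith)
      (by
        have h1 : bp4.tail.getLastD 770000 = 966000 := by decide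
        rw [h1]
        unfold Ub U6
        rw [S_cast]
        norm_num
        linarith) (by decide)
    exact h

end Pool.Agent.H58.Tal
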