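import Pool.Agent.H77.Tal.Seq

/-!
# M6R1c, part 4: soundness of the check of one interval
-/

set_option autoImplicit false

open Finset Real

namespace Pool.Agent.H58.Tal.R1c

/-- `P_i x^i` -/
noncomputable def fP (e x : ℝ) (i : ℕ) : ℝ := PC e i * x ^ i
/-- `y1_i x^i` -/
noncomputable def fY (x : ℝ) (i : ℕ) : ℝ := (y1C i : ℝ) * x ^ i
/-- `w1_i x^i` -/
noncomputable def fW (x : ℝ) (i : ℕ) : ℝ := (w1C i : ℝ) * x ^ i
/-- `(o_i + o_{i-1})/12 x^i` -/
noncomputable def fO (x : ℝ) (i : ℕ) : ℝ :=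
  ((oC i : ℝ) + (if i = 0 then 0 else (oC (i - 1) : ℝ))) / 12 * x ^ i
/-- previous value -/
noncomputable def prv (f : ℕ → ℝ) (n : ℕ) : ℝ := if n = 0 then 0 else f (n - 1)

theorem GC_eq (e x : ℝ) (n : ℕ) : GC e n * x ^ n =
    fP e x n + (e * yh e) * cs (fP e x) (fY x) n 0 + (e * (e * rh e)) * cs (fP e x) (fW x) n 0 +
      (e * dr e) * fO x n + (e * (e * dr e) * x / 6) * prv (fP e x) n := by
  have h1 : e * (∑ i ∈ range (n + 1), PC e i * zC e (n - i)) * x ^ n =
      (e * yh e) * cs (fP e x) (fY x) n 0 + (e * (e * rh e)) * cs (fP e x) (fW x) n 0 := by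
    rw [cs_eq', cs_eq', mul_assoc, Finset.sum_mul, Finset.mul_sum, Finset.mul_sum,
      Finset.mul_sum, ← Finset.sum_add_distrib]
    refine Finset.sum_congr rfl fun i hi => ?_
    have h2 : x ^ n = x ^ i * x ^ (n - i) := by
      rw [← pow_add]
      congr 1
      rw [Finset.mem_range] at hi
      omega
    unfold zC fP fY fW
    rw [h2]
    ring
  have h3 : GC e n * x ^ n = PC e n * x ^ n +
      e * (∑ i ∈ range (n + 1), PC e i * zC e (n - i)) * x ^ n +
      e * dr e * (((oC n : ℝ) + (if n = 0 then 0 else (oC (n - 1) : ℝ))) / 12 +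
      (if n = 0 then 0 else e * PC e (n - 1) / 6)) * x ^ n := by
    unfold GC
    ring
  rw [h3, h1]
  unfold prv fO
  rcases n with _ | n
  · simp [fP]
    ring
  · simp only [Nat.add_eq_zero_iff, one_ne_zero, and_false, if_false, Nat.add_sub_cancel]
    unfold fP
    rw [pow_succ]
    ring

theorem gList_sound {e x : ℝ} {ey eer ed eed J : ℕ} {Y W : List ℕ}
    (h1 : Ub (e * yh e) ey) (h1' : 0 ≤ e * yh e)
    (h2 : Ub (e * (e * rh e)) eer) (h2' : 0 ≤ e * (e * rh e))
    (h3 : Ub (e * dr e) ed) (h3' : 0 ≤ e * dr e)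
    (h4 : Ub (e * (e * dr e) * x / 6) eed) (h4' : 0 ≤ e * (e * dr e) * x / 6)
    (hY : UBn (fY x) 0 (J + 1) Y) (hW : UBn (fW x) 0 (J + 1) W)
    (hY0 : ∀ i ≤ J, 0 ≤ fY x i) (hW0 : ∀ i ≤ J, 0 ≤ fW x i) :
    ∀ {k n prev : ℕ} {pp os rev : List ℕ}, n + k ≤ J + 1 → UBn (fP e x) n k pp →
      UBn (fO x) n k os → RUB (fP e x) n rev → Ub (prv (fP e x) n) prev →
      UBn (fun i => GC e i * x ^ i) n k (gList ey eer ed eed Y W pp os rev prev)
  | 0, _, _, _, _, _, _, _, _, _, _ => trivial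
  | _ + 1, _, _, [], _, _, _, h, _, _, _ => h.elim
  | _ + 1, _, _, _ :: _, [], _, _, _, h, _, _ => h.elim
  | k + 1, n, prev, P :: pp, o :: os, rev, hn, hp, ho, hr, hv => by
    have hr' : RUB (fP e x) (n + 1) (P :: rev) := ⟨hp.1, hr⟩
    have d1 := dot_Ub hr' (hY.le (by omega)) (fun i hi => hY0 i (by omega))
    have d2 := dot_Ub hr' (hW.le (by omega)) (fun i hi => hW0 i (by omega))
    refine ⟨?_, ?_⟩
    · change Ub (GC e n * x ^ n) _
      rw [GC_eq]
      exact ((((hp.1.add (h1.mul' d1 h1')).add (h2.mul' d2 h2')).add (h3.mul' ho.1 h3')).add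
        (h4.mul' hv h4'))
    · have hv' : Ub (prv (fP e x) (n + 1)) P := by
        have : prv (fP e x) (n + 1) = fP e x n := by simp [prv]
        rw [this]
        exact hp.1
      exact gList_sound h1 h1' h2 h2' h3 h3' h4 h4' hY hW hY0 hW0 (by omega) hp.2 ho.2 hr' hv'

theorem aList_sound {e x : ℝ} {y er : ℕ} (h1 : Lb (yh e) y) (h2 : Lb (e * rh e) er) :
    ∀ {k n : ℕ} {ls ks : List ℕ}, LBn (fun i => (loC i : ℝ) * x ^ i) n k ls →
      LBn (fun i => (koC i : ℝ) * x ^ i) n k ks →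
      LBn (fun i => AC e i * x ^ i) n k (aList y er ls ks)
  | 0, _, _, _, _, _ => trivial
  | _ + 1, _, [], _, h, _ => h.elim
  | _ + 1, _, _ :: _, [], _, h => h.elim
  | k + 1, n, l :: ls, c :: ks, hl, hk => by
    refine ⟨?_, aList_sound h1 h2 hl.2 hk.2⟩
    change Lb (AC e n * x ^ n) _
    have h3 : AC e n * x ^ n = yh e * ((loC n : ℝ) * x ^ n) + (e * rh e) * ((koC n : ℝ) * x ^ n) := by
      unfold AC
      ring
    rw [h3]
    exact (h1.mul hl.1).add (h2.mul hk.1)

theorem cmp_sound {a g : ℕ → ℝ} : ∀ {k n A G : ℕ} {as gs : List ℕ} {SA SG : ℝ},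
    LBn a n k as → UBn g n k gs → cmp as gs A G = true → Lb SA A → Ub SG G →
    ∀ j < k, SG + ∑ i ∈ range (j + 1), g (n + i) ≤ SA + ∑ i ∈ range (j + 1), a (n + i)
  | 0, _, _, _, _, _, _, _, _, _, _, _, _, j, hj => absurd hj (by omega)
  | _ + 1, _, _, _, [], _, _, _, h, _, _, _, _, _, _ => h.elim
  | _ + 1, _, _, _, _ :: _, [], _, _, _, h, _, _, _, _, _ => h.elim
  | k + 1, n, A, G, a' :: as, g' :: gs, SA, SG, ha, hg, hc, hA, hG, j, hj => by
    simp only [cmp, Bool.and_eq_true, Nat.ble_eq] at hc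
    have hA' := hA.add ha.1
    have hG' := hG.add hg.1
    rcases j with _ | j
    · have h1 : ((G + g' : ℕ) : ℝ) ≤ ((A + a' : ℕ) : ℝ) := by exact_mod_cast hc.1
      unfold Lb at hA'
      unfold Ub at hG'
      have h2 : (SG + g n) * S ≤ (SA + a n) * S := hG'.trans (h1.trans hA')
      have h3 := le_of_mul_le_mul_right h2 S_pos
      simpa using h3
    · have ih := cmp_sound ha.2 hg.2 hc.2 hA' hG' j (by omega)
      have e1 : ∀ f : ℕ → ℝ, ∑ i ∈ range (j + 1 + 1), f (n + i) =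
          f n + ∑ i ∈ range (j + 1), f (n + 1 + i) := by
        intro f
        rw [Finset.sum_range_succ', add_comm, add_zero]
        congr 1
        refine Finset.sum_congr rfl fun i _ => ?_
        rw [show n + (i + 1) = n + 1 + i by ring]
      rw [e1, e1]
      linarith

/-- correctness of the constants of a regime -/
structure KOK (k : Kc) (t : ℝ) : Prop where
  t0 : 0 < t
  xN : 0 < k.xN
  xND : k.xN < k.xD
  x : t ^ 2 = (k.xN : ℝ) / k.xD
  xp : UBn (fun i => (t ^ 2) ^ i) 0 (k.J + 2) k.xp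
  lo : LBn (fun i => (loC i : ℝ) * (t ^ 2) ^ i) 0 (k.J + 1) k.lo
  ko : LBn (fun i => (koC i : ℝ) * (t ^ 2) ^ i) 0 (k.J + 1) k.ko
  y1 : UBn (fY (t ^ 2)) 0 (k.J + 1) k.y1
  w1 : UBn (fW (t ^ 2)) 0 (k.J + 1) k.w1
  os : UBn (fO (t ^ 2)) 0 (k.J + 1) k.os
  y0 : ∀ i ≤ k.J, 0 ≤ fY (t ^ 2) i
  w0 : ∀ i ≤ k.J, 0 ≤ fW (t ^ 2) i
  yX : Ub (t ^ 2 * la t + 2 * oo t - 2) k.yX
  yX0 : 0 ≤ t ^ 2 * la t + 2 * oo t - 2
  wX : Ub (t ^ 2 * kk t + 2 - 2 * oo t + t ^ 2 * oo t * la t) k.wX
  wX0 : 0 ≤ t ^ 2 * kk t + 2 - 2 * oo t + t ^ 2 * oo t * la t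
  oX : Ub (oo t * (1 + t ^ 2) / 12) k.oX

/-- the conclusion of the check -/
def Concl (t : ℝ) (J : ℕ) (e : ℝ) : Prop :=
  (∀ j ≤ J, 0 ≤ ∑ i ∈ range (j + 1), (AC e i - GC e i) * t ^ (2 * i)) ∧
      Pup e t J * (1 + e * zz e t) +
          e * dr e * (oo t * (1 + t ^ 2) / 12 + e * Pup e t J * t ^ 2 / 6) ≤
        ∑ i ∈ range (J + 1), AC e i * t ^ (2 * i)

theorem chkM_sound {k : Kc} {t : ℝ} (hk : KOK k t) {E0 E1 p r yL yU hL hU dU : ℕ} {e : ℝ}
    (he : 0 < e) (h0 : Lb e E0) (h1 : Ub e E1) (hE : E1 ≤ S)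
    (hp : Ub (PC e 0) p) (hr : Lb ((1 + e) * Bb e) r) (hyL : Lb (yh e) yL) (hyU : Ub (yh e) yU)
    (hhL : Lb (rh e) hL) (hhU : Ub (rh e) hU) (hdU : Ub (dr e) dU) (hd0 : 0 ≤ dr e)
    (hq : 0 ≤ yh e - PC e 0 - e * dr e / 12)
    (h : chkM k E0 E1 p r yL yU hL hU dU = true) : Concl t k.J e := by
  have hS := S_pos
  have hy0 := hyL.nonneg
  have hr0 := hhL.nonneg
  have ht0 := hk.t0
  set x : ℝ := t ^ 2 with hx
  have hx0 : 0 ≤ x := by positivity
  have hxD : (0 : ℝ) < k.xD := by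
    have := hk.xND
    exact_mod_cast (by omega : 0 < k.xD)
  have hxN : (0 : ℝ) < k.xN := by exact_mod_cast hk.xN
  have hxND : (k.xN : ℝ) < k.xD := by exact_mod_cast hk.xND
  have hx1 : x < 1 := by
    rw [hx, hk.x, div_lt_one hxD]
    exact hxND
  have hpow : ∀ i, t ^ (2 * i) = x ^ i := fun i => by rw [hx, pow_mul]
  -- scalar products
  have er : Ub (e * rh e) (E1 * hU / S + 1) := h1.mul hhU hr0
  have er0 : 0 ≤ e * rh e := by positivity
  have eer : Ub (e * (e * rh e)) (E1 * (E1 * hU / S + 1) / S + 1) := h1.mul er er0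
  have ed : Ub (e * dr e) (E1 * dU / S + 1) := h1.mul hdU hd0
  have ed0 : 0 ≤ e * dr e := by positivity
  have eed : Ub (e * (e * dr e) * x / 6)
      ((E1 * (E1 * dU / S + 1) / S + 1) * k.xN / (6 * k.xD) + 1) := by
    have h2 : Ub (e * (e * dr e)) (E1 * (E1 * dU / S + 1) / S + 1) := h1.mul ed ed0
    unfold Ub at h2 ⊢
    refine le_trans ?_ (le_cdiv _ _ (by
      have := hk.xND
      omega))
    rw [hx, hk.x]
    push_cast
    rw [le_div_iff₀ (by positivity)]
    have h3 : e * (e * dr e) * ((k.xN : ℝ) / k.xD) / 6 * S * (6 * k.xD) =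
        (e * (e * dr e) * S) * k.xN := by
      field_simp
    rw [h3]
    have h4 := mul_le_mul_of_nonneg_right h2 hxN.le
    push_cast at h4
    exact h4
  have ey : Ub (e * yh e) (E1 * yU / S + 1) := h1.mul hyU hy0
  -- lists
  have hPK0 : Lb (PK e 0).1 S := by
    change Lb 1 S
    unfold Lb
    simp
  have hPK0' : Lb (PK e 0).2 0 := by
    change Lb 0 0
    unfold Lb
    simp
  have hpp := pList_sound h1 hE hp hr hx0 hk.xp hPK0 hPK0' hp
  have hpp' : UBn (fP e x) 0 (k.J + 2) (pList E1 p r k.xp 0 S 0 p) := hpp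
  have hprv : Ub (prv (fP e x) 0) 0 := by
    simp [Ub, prv]
  have hgs := gList_sound (J := k.J) ey (by positivity) eer (by positivity) ed ed0 eed
    (by positivity) hk.y1 hk.w1 hk.y0 hk.w0 (k := k.J + 1) (n := 0) (prev := 0) (rev := [])
    (by omega) (hpp'.le (by omega)) hk.os trivial hprv
  have has := aList_sound (x := x) hyL (h0.mul hhL) hk.lo hk.ko
  unfold chkM at h
  simp only [Bool.and_eq_true, Nat.ble_eq] at h
  obtain ⟨hcmp, htail⟩ := h
  generalize pList E1 p r k.xp 0 S 0 p = pp at *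
  generalize hG : gList (E1 * yU / S + 1) (E1 * (E1 * hU / S + 1) / S + 1) (E1 * dU / S + 1)
    ((E1 * (E1 * dU / S + 1) / S + 1) * k.xN / (6 * k.xD) + 1) k.y1 k.w1 pp k.os [] 0 = gs at *
  generalize aList yL (E0 * hL / S) k.lo k.ko = as at *
  refine ⟨?_, ?_⟩
  · -- partial sums
    intro j hj
    have hsum : ∑ i ∈ range (j + 1), (AC e i - GC e i) * t ^ (2 * i) =
        ∑ i ∈ range (j + 1), AC e i * x ^ i - ∑ i ∈ range (j + 1), GC e i * x ^ i := by
      rw [← Finset.sum_sub_distrib]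
      refine Finset.sum_congr rfl fun i _ => ?_
      rw [hpow]
      ring
    rw [hsum]
    rcases j with _ | j
    · -- j = 0
      simp only [zero_add, Finset.sum_range_one, pow_zero, mul_one]
      have a0 : AC e 0 = yh e := by
        simp [AC, loC, koC, kC, conv, laC, oC]
      have z0 : zC e 0 = 0 := by
        simp [zC, y1C, w1C]
      have g0 : GC e 0 = PC e 0 + e * dr e / 12 := by
        simp [GC, z0, oC]
        ring
      rw [a0, g0]
      linarith
    · match gs, as, hgs, has, hcmp with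
      | [], _, hgs, _, _ => exact hgs.elim
      | _ :: _, [], _, has, _ => exact has.elim
      | g0 :: gs, a0 :: as, hgs, has, hcmp =>
        have h3 := cmp_sound has.2 hgs.2 hcmp has.1 hgs.1 j (by omega)
        have e1 : ∀ f : ℕ → ℝ, ∑ i ∈ range (j + 1 + 1), f i =
            f 0 + ∑ i ∈ range (j + 1), f (0 + 1 + i) := by
          intro f
          rw [Finset.sum_range_succ', add_comm]
          congr 1
          refine Finset.sum_congr rfl fun i _ => ?_
          rw [show 0 + 1 + i = i + 1 by ring]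
        rw [e1 (fun i => AC e i * x ^ i), e1 (fun i => GC e i * x ^ i)]
        linarith
  · -- tail
    have hPupEq : Pup e t k.J = ∑ i ∈ range (k.J + 1), fP e x (0 + i) +
        fP e x (0 + (k.J + 1)) * k.xD / ((k.xD - k.xN : ℕ) : ℝ) := by
      unfold Pup
      congr 1
      · refine Finset.sum_congr rfl fun i _ => ?_
        rw [hpow, zero_add]
        rfl
      · rw [hpow, zero_add, Nat.cast_sub hk.xND.le]
        change fP e x (k.J + 1) / (1 - t ^ 2) = _
        rw [hk.x]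
        have : (k.xD : ℝ) - k.xN ≠ 0 := by
          have := sub_pos.2 hxND
          exact this.ne'
        field_simp
    have u1 := (hpp'.le (k' := k.J + 1) (by omega)).sum
    have u2 := hpp'.getD (k.J + 1) (by omega)
    have hPup : Ub (Pup e t k.J) ((pp.take (k.J + 1)).sum +
        ((pp.getD (k.J + 1) 0) * k.xD / (k.xD - k.xN) + 1)) := by
      rw [hPupEq]
      refine u1.add ?_
      unfold Ub at u2 ⊢
      refine le_trans ?_ (le_cdiv _ _ (by
        have := hk.xND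
        omega))
      have hD : (0 : ℝ) < ((k.xD - k.xN : ℕ) : ℝ) := by
        have := hk.xND
        exact_mod_cast (by omega : 0 < k.xD - k.xN)
      rw [div_mul_eq_mul_div, div_le_div_iff_of_pos_right hD]
      push_cast
      have := mul_le_mul_of_nonneg_right u2 hxD.le
      linarith
    have hz : Ub (e * zz e t) (E1 * ((yU * k.yX / S + 1) + ((E1 * hU / S + 1) * k.wX / S + 1)) / S
        + 1) := by
      have z1 := hyU.mul hk.yX hk.yX0
      have z2 := er.mul hk.wX hk.wX0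
      have z3 := z1.add z2
      have hzz : zz e t = yh e * (t ^ 2 * la t + 2 * oo t - 2) +
        e * rh e * (t ^ 2 * kk t + 2 - 2 * oo t + t ^ 2 * oo t * la t) := rfl
      rw [hzz]
      exact h1.mul z3 (add_nonneg (mul_nonneg hy0 hk.yX0) (mul_nonneg er0 hk.wX0))
    have hz0 : 0 ≤ e * zz e t := by
      have hzz : zz e t = yh e * (t ^ 2 * la t + 2 * oo t - 2) +
        e * rh e * (t ^ 2 * kk t + 2 - 2 * oo t + t ^ 2 * oo t * la t) := rfl
      rw [hzz]
      exact mul_nonneg he.le (add_nonneg (mul_nonneg hy0 hk.yX0) (mul_nonneg er0 hk.wX0))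
    have v1 := hPup.mul hz hz0
    have v2 := ed.mul' hk.oX ed0
    have v3 := eed.mul' hPup (by positivity)
    have v4 := ((hPup.add v1).add v2).add v3
    have hA := has.sum
    have hA' : ∑ i ∈ range (k.J + 1), AC e i * t ^ (2 * i) =
        ∑ i ∈ range (k.J + 1), (fun i => AC e i * x ^ i) (0 + i) := by
      refine Finset.sum_congr rfl fun i _ => ?_
      simp only [zero_add, hpow]
    rw [hA']
    have hT : Pup e t k.J * (1 + e * zz e t) +
          e * dr e * (oo t * (1 + t ^ 2) / 12 + e * Pup e t k.J * t ^ 2 / 6) =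
        Pup e t k.J + Pup e t k.J * (e * zz e t) + e * dr e * (oo t * (1 + t ^ 2) / 12) +
          e * (e * dr e) * x / 6 * Pup e t k.J := by
      rw [hx]
      ring
    rw [hT]
    unfold Ub at v4
    unfold Lb at hA
    have hfin := v4.trans ((by exact_mod_cast htail :
      _ ≤ ((((as.take (k.J + 1)).sum : ℕ)) : ℝ)).trans hA)
    exact le_of_mul_le_mul_right hfin hS

theorem chk_sound {k : Kc} {t : ℝ} (hk : KOK k t) {E0 E1 : ℕ} (h : chk k E0 E1 = true) {e : ℝ}
    (he : 0 < e) (h0 : Lb e E0) (h1 : Ub e E1) : Concl t k.J e := by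
  unfold chk at h
  simp only [Bool.and_eq_true, Nat.ble_eq] at h
  obtain ⟨⟨h2, hE⟩, h3⟩ := h
  obtain ⟨hp, hr, hyL, hyU, hhL, hhU, hdU, hd0, hq⟩ := okSc_sound h2 hE he h0 h1
  exact chkM_sound hk he h0 h1 hE hp hr hyL hyU hhL hhU hdU hd0 hq h3

theorem chkAll_cons (k : Kc) (a b : ℕ) (L : List ℕ) :
    chkAll k (a :: b :: L) = (chk k (a * U6) (b * U6) && chkAll k (b :: L)) := rfl

theorem chkAll_sound {k : Kc} {t : ℝ} (hk : KOK k t) (L : List ℕ) : ∀ (a : ℕ),
    chkAll k (a :: L) = true → ∀ {e : ℝ}, 0 < e → Lb e (a * U6) →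
      Ub e (L.getLastD a * U6) → L ≠ [] → Concl t k.J e := by
  induction L with
  | nil => exact fun a _ e _ _ _ h => absurd rfl h
  | cons b L ih =>
    intro a h e he h0 h1 _
    rw [chkAll_cons, Bool.and_eq_true] at h
    by_cases hL : L = []
    · subst hL
      exact chk_sound hk h.1 he h0 h1
    · rcases le_total (e * S) ((b * U6 : ℕ) : ℝ) with h2 | h2
      · exact chk_sound hk h.1 he h0 h2
      · refine ih b h.2 he h2 ?_ hL
        rwa [List.getLastD_cons] at h1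

end Pool.Agent.H58.Tal.R1c
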