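import Pool.Agent.H58.Tal.Defs6R
import Pool.Agent.H58.Tal.M6B

/-!
# M6R1c, part 1: fixed point bounds and the scalar data of an interval
-/

set_option autoImplicit false

open Finset Real

namespace Pool.Agent.H58.Tal.R1c

/-- the scale -/
def S : ℕ := 1000000000000
/-- lower bound of `log 2` -/
def T0 : ℕ := 693147180300
/-- upper bound of `log 2` -/
def T1 : ℕ := 693147180800
/-- upper bound of `ac` -/
def acU : ℕ := 326713204926
/-- lower bound of `ac` -/
def acL : ℕ := 326713204800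

theorem S_cast : (S : ℝ) = 1000000000000 := by norm_num [S]

theorem S_pos : (0 : ℝ) < S := by rw [S_cast]; norm_num

/-- `x ≤ a / S` -/
def Ub (x : ℝ) (a : ℕ) : Prop := x * S ≤ a
/-- `a / S ≤ x` -/
def Lb (x : ℝ) (a : ℕ) : Prop := (a : ℝ) ≤ x * S

theorem cdiv_le (a b : ℕ) : ((a / b : ℕ) : ℝ) ≤ (a : ℝ) / b := Nat.cast_div_le

theorem le_cdiv (a b : ℕ) (hb : 0 < b) : (a : ℝ) / b ≤ ((a / b + 1 : ℕ) : ℝ) := by
  have hb' : (0 : ℝ) < b := by exact_mod_cast hb
  rw [div_le_iff₀ hb']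
  have h : a ≤ (a / b + 1) * b := by
    have := Nat.lt_div_mul_add (a := a) hb
    nlinarith
  exact_mod_cast h

theorem Ub.mono {x y : ℝ} {a : ℕ} (h : Ub y a) (hxy : x ≤ y) : Ub x a :=
  (mul_le_mul_of_nonneg_right hxy S_pos.le).trans h

theorem Lb.mono {x y : ℝ} {a : ℕ} (h : Lb x a) (hxy : x ≤ y) : Lb y a :=
  h.trans (mul_le_mul_of_nonneg_right hxy S_pos.le)

theorem Lb.nonneg {x : ℝ} {a : ℕ} (h : Lb x a) : 0 ≤ x := by
  have h1 : (0 : ℝ) ≤ x * S := le_trans (Nat.cast_nonneg a) h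
  exact nonneg_of_mul_nonneg_left h1 S_pos

theorem Ub.add {x y : ℝ} {a b : ℕ} (hx : Ub x a) (hy : Ub y b) : Ub (x + y) (a + b) := by
  unfold Ub at *
  push_cast
  linarith

theorem Lb.add {x y : ℝ} {a b : ℕ} (hx : Lb x a) (hy : Lb y b) : Lb (x + y) (a + b) := by
  unfold Lb at *
  push_cast
  linarith

theorem Ub.le_div {x : ℝ} {a : ℕ} (h : Ub x a) : x ≤ a / S := by
  rw [le_div_iff₀ S_pos]; exact h

theorem Lb.div_le {x : ℝ} {a : ℕ} (h : Lb x a) : a / S ≤ x := by
  rw [div_le_iff₀ S_pos]; exact h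

/-- upper bound of `x y / c` -/
theorem Ub.muldiv {x y : ℝ} {a b : ℕ} (hx : Ub x a) (hy : Ub y b) (h0 : 0 ≤ y) (c : ℕ)
    (hc : 0 < c) : Ub (x * y / c) (a * b / (c * S) + 1) := by
  have hc' : (0 : ℝ) < c := by exact_mod_cast hc
  have hS := S_pos
  have h1 : x * y / c * S ≤ (a : ℝ) * b / (c * S) := by
    rw [le_div_iff₀ (by positivity)]
    have h2 : x * y / c * S * (c * S) = (x * S) * (y * S) := by field_simp
    rw [h2]
    exact mul_le_mul hx hy (by positivity) (Nat.cast_nonneg a)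
  refine h1.trans ?_
  have h3 := le_cdiv (a * b) (c * S) (by
    have : 0 < S := by norm_num [S]
    positivity)
  push_cast at h3 ⊢
  exact h3

/-- upper bound of `x y / c` -/
theorem Ub.muldiv' {x y : ℝ} {a b : ℕ} (hx : Ub x a) (hy : Ub y b) (h0 : 0 ≤ x) (c : ℕ)
    (hc : 0 < c) : Ub (x * y / c) (a * b / (c * S) + 1) := by
  rw [mul_comm x y, mul_comm a b]
  exact hy.muldiv hx h0 c hc

theorem Ub.mul {x y : ℝ} {a b : ℕ} (hx : Ub x a) (hy : Ub y b) (h0 : 0 ≤ y) :
    Ub (x * y) (a * b / S + 1) := by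
  have := hx.muldiv hy h0 1 one_pos
  simpa using this

theorem Ub.mul' {x y : ℝ} {a b : ℕ} (hx : Ub x a) (hy : Ub y b) (h0 : 0 ≤ x) :
    Ub (x * y) (a * b / S + 1) := by
  have := hx.muldiv' hy h0 1 one_pos
  simpa using this

/-- lower bound of `x y / c` -/
theorem Lb.muldiv {x y : ℝ} {a b : ℕ} (hx : Lb x a) (hy : Lb y b) (c : ℕ) (hc : 0 < c) :
    Lb (x * y / c) (a * b / (c * S)) := by
  have hc' : (0 : ℝ) < c := by exact_mod_cast hc
  have hS := S_pos
  have h3 := cdiv_le (a * b) (c * S)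
  refine h3.trans ?_
  push_cast
  rw [div_le_iff₀ (by positivity)]
  have h2 : x * y / c * S * (c * S) = (x * S) * (y * S) := by field_simp
  rw [h2]
  exact mul_le_mul hx hy (Nat.cast_nonneg b) ((Nat.cast_nonneg a).trans hx)

theorem Lb.mul {x y : ℝ} {a b : ℕ} (hx : Lb x a) (hy : Lb y b) : Lb (x * y) (a * b / S) := by
  have := hx.muldiv hy 1 one_pos
  simpa using this

theorem Ub.divc {x : ℝ} {a : ℕ} (hx : Ub x a) (c : ℕ) (hc : 0 < c) : Ub (x / c) (a / c + 1) := by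
  have hc' : (0 : ℝ) < c := by exact_mod_cast hc
  refine le_trans ?_ (le_cdiv a c hc)
  rw [le_div_iff₀ hc']
  have : x / c * S * c = x * S := by field_simp
  rw [this]
  exact hx

theorem Lb.divc {x : ℝ} {a : ℕ} (hx : Lb x a) (c : ℕ) (hc : 0 < c) : Lb (x / c) (a / c) := by
  have hc' : (0 : ℝ) < c := by exact_mod_cast hc
  refine le_trans (cdiv_le a c) ?_
  rw [div_le_iff₀ hc']
  have : x / c * S * c = x * S := by field_simp
  rw [this]
  exact hx

theorem lb_log2 : Lb (Real.log 2) T0 := by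
  have := Real.log_two_gt_d9
  unfold Lb T0
  rw [S_cast]
  norm_num
  linarith

theorem ub_log2 : Ub (Real.log 2) T1 := by
  have := Real.log_two_lt_d9
  unfold Ub T1
  rw [S_cast]
  norm_num
  linarith

theorem lb_ac : Lb ac acL := by
  have := Real.log_two_lt_d9
  unfold Lb acL ac
  rw [S_cast]
  norm_num
  linarith

theorem ub_ac : Ub ac acU := by
  have := Real.log_two_gt_d9
  unfold Ub acU ac
  rw [S_cast]
  norm_num
  linarith

end Pool.Agent.H58.Tal.R1c
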