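import Pool.Agent.H77.Tal.Fix

/-!
# M6R1c, part 2: soundness of the scalar data of an interval
-/

set_option autoImplicit false

open Finset Real

namespace Pool.Agent.H58.Tal.R1c

/-- lower bound of `y = e log 2` -/
def yLo (E0 : ℕ) : ℕ := T0 * E0 / S
/-- upper bound of `y = e log 2` -/
def yHi (E1 : ℕ) : ℕ := T1 * E1 / S + 1

/-- scalar data of an interval -/
structure Sc where
  BU : ℕ
  BL : ℕ
  p : ℕ
  h0 : ℕ
  r : ℕ
  gL : ℕ
  gU : ℕ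
  DU : ℕ
  DL : ℕ
  yL : ℕ
  yU : ℕ
  wL : ℕ
  wU : ℕ
  bL : ℕ
  bU : ℕ
  hL : ℕ
  hU : ℕ
  dU : ℕ
  b0 : ℕ
  mu : ℕ

/-- scalar data computed (untrusted) -/
def scal (E0 E1 : ℕ) : Sc :=
  let YL := yLo E0
  let YU := yHi E1
  let YL2 := YL * YL / S
  let YL3 := YL2 * YL / S
  let YL4 := YL2 * YL2 / S
  let YU2 := YU * YU / S + 1
  let YU4 := YU2 * YU2 / S + 1
  let YU5 := YU4 * YU / S + 1
  let YU6 := YU4 * YU2 / S + 1
  let BU := S + (YU2 / 12 + 1) + (YU6 / 30240 + 1) - (YL / 2 + YL4 / 720)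
  let BL := S + YL2 / 12 - ((YU / 2 + 1) + (YU4 / 720 + 1))
  let p := (S + (YU2 / 12 + 1) + (YU6 / 30240 + 1) + (T1 * YU / (12 * S) + 1)
    + (T1 * YU5 / (30240 * S) + 1) - (YL / 2 + YL4 / 720 + T0 / 2 + T0 * YL3 / (720 * S))) / 2 + 1
  let y0 := yHi E0
  let y02 := y0 * y0 / S + 1
  let y04 := y02 * y02 / S + 1
  let h0 := S + YL2 / 12 - ((y0 / 2 + 1) + (y04 / 720 + 1))
  let r := (S + E0) * h0 / S
  let gL := (100 * S ^ 3 + 59 * E1 ^ 2 * S - (105 * E1 * S ^ 2 + 22 * E1 ^ 3)) / (100 * S ^ 2)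
  let gU := (100 * S ^ 3 + 59 * E0 ^ 2 * S - (105 * E0 * S ^ 2 + 22 * E0 ^ 3)) / (100 * S ^ 2) + 1
  let DU := BU - E0 * S / (S + E0)
  let DL := BL - (E1 * S / (S + E1) + 1)
  let yU := acU * DU / gL + 1
  let yL := acL * DL / gU
  let wL := S + YL / 2 + YL2 / 12 - (YU4 / 720 + 1)
  let wU := S + (YU / 2 + 1) + (YU2 / 12 + 1) + (YU6 / 30240 + 1) - YL4 / 720
  let bL := (S + E0) * wL / S
  let bU := (S + E1) * wU / S + 1
  let hU := 1048 * S ^ 3 / (10000 * bL ^ 2) + 1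
  let hL := 1048 * S ^ 3 / (10000 * bU ^ 2)
  let dU := 3872 * S ^ 3 / (10000 * bL ^ 2) + 1
  let b0 := T0 * T0 / (12 * S) - ((T1 * T1 / S + 1) * YU2 / (720 * S) + 1)
  let mu := (S * S / (S + E0) + 1) + (T1 / 2 + 1) + (59 * E1 / 100 + 1) -
    (21 * S / 20 + 22 * E0 ^ 2 / (100 * S) + E0 * b0 / S)
  ⟨BU, BL, p, h0, r, gL, gU, DU, DL, yL, yU, wL, wU, bL, bU, hL, hU, dU, b0, mu⟩

/-- the trusted checks of the scalar data -/
def okSc' (E0 E1 YL YU YL2 YL3 YL4 YU2 YU4 YU5 YU6 y0 y04 : ℕ) (s : Sc) : Bool :=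
  Nat.ble (S + (YU2 / 12 + 1) + (YU6 / 30240 + 1)) (s.BU + YL / 2 + YL4 / 720) &&
  (Nat.ble (s.BL + (YU / 2 + 1) + (YU4 / 720 + 1)) (S + YL2 / 12) &&
  (Nat.ble (S + (YU2 / 12 + 1) + (YU6 / 30240 + 1) + (T1 * YU / (12 * S) + 1)
    + (T1 * YU5 / (30240 * S) + 1)) (2 * s.p + YL / 2 + YL4 / 720 + T0 / 2
      + T0 * YL3 / (720 * S)) &&
  (Nat.ble (s.h0 + (y0 / 2 + 1) + (y04 / 720 + 1)) (S + YL2 / 12) &&
  (Nat.ble (s.r * S) ((S + E0) * s.h0) &&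
  (Nat.ble (s.gL * (100 * S ^ 2) + 105 * E1 * S ^ 2 + 22 * E1 ^ 3)
    (100 * S ^ 3 + 59 * E1 ^ 2 * S) &&
  (Nat.ble (100 * S ^ 3 + 59 * E0 ^ 2 * S)
    (s.gU * (100 * S ^ 2) + 105 * E0 * S ^ 2 + 22 * E0 ^ 3) &&
  (Nat.ble (s.BU * (S + E0)) (s.DU * (S + E0) + E0 * S) &&
  (Nat.ble (s.DL * (S + E1) + E1 * S) (s.BL * (S + E1)) &&
  (Nat.ble 1 s.gL && (Nat.ble (acU * s.DU) (s.yU * s.gL) &&
  (Nat.ble (s.yL * s.gU) (acL * s.DL) &&
  (Nat.ble (s.wL + (YU4 / 720 + 1)) (S + YL / 2 + YL2 / 12) &&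
  (Nat.ble (S + (YU / 2 + 1) + (YU2 / 12 + 1) + (YU6 / 30240 + 1)) (s.wU + YL4 / 720) &&
  (Nat.ble (s.bL * S) ((S + E0) * s.wL) && (Nat.ble ((S + E1) * s.wU) (s.bU * S) &&
  (Nat.ble 1 s.bL && (Nat.ble (1048 * S ^ 3) (s.hU * (10000 * s.bL ^ 2)) &&
  (Nat.ble (s.hL * (10000 * s.bU ^ 2)) (1048 * S ^ 3) &&
  (Nat.ble (3872 * S ^ 3) (s.dU * (10000 * s.bL ^ 2)) &&
  (Nat.ble (s.b0 + ((T1 * T1 / S + 1) * YU2 / (720 * S) + 1)) (T0 * T0 / (12 * S)) &&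
  (Nat.ble ((S * S / (S + E0) + 1) + (T1 / 2 + 1) + (59 * E1 / 100 + 1))
    (s.mu + 21 * S / 20 + 22 * E0 ^ 2 / (100 * S) + E0 * s.b0 / S) &&
  Nat.ble (2 * (acU * s.mu / s.gL + 1) + ((T1 * T1 / (12 * S) + 1) * (S + E1) / S + 1) +
    2 * (s.dU / 12 + 1)) (T0 / 2))))))))))))))))))))))

/-- the trusted checks of the scalar data -/
def okSc (E0 E1 : ℕ) (s : Sc) : Bool :=
  let YL := yLo E0
  let YU := yHi E1
  let YL2 := YL * YL / S
  let YL3 := YL2 * YL / S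
  let YL4 := YL2 * YL2 / S
  let YU2 := YU * YU / S + 1
  let YU4 := YU2 * YU2 / S + 1
  let YU5 := YU4 * YU / S + 1
  let YU6 := YU4 * YU2 / S + 1
  let y0 := yHi E0
  let y02 := y0 * y0 / S + 1
  let y04 := y02 * y02 / S + 1
  okSc' E0 E1 YL YU YL2 YL3 YL4 YU2 YU4 YU5 YU6 y0 y04 s



/-- monotonicity of `(1+e) (1 - y/2 + y²/12 - y⁴/720)`, `y = τ e` -/
theorem F_mono {τ a e : ℝ} (h1 : 0.693147 < τ) (h2 : τ < 0.693148) (ha : 0 ≤ a) (hae : a ≤ e)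
    (he : e ≤ 1) :
    (1 + a) * (1 - τ * a / 2 + (τ * a) ^ 2 / 12 - (τ * a) ^ 4 / 720) ≤
      (1 + e) * (1 - τ * e / 2 + (τ * e) ^ 2 / 12 - (τ * e) ^ 4 / 720) := by
  have he0 : 0 ≤ e := ha.trans hae
  have ha1 : a ≤ 1 := hae.trans he
  have t2l : 0.48045 ≤ τ ^ 2 := by nlinarith
  have t2u : τ ^ 2 ≤ 0.48046 := by nlinarith
  have t4u : τ ^ 4 ≤ 0.231 := by nlinarith
  have t4l : 0 ≤ τ ^ 4 := by positivity
  have key : 0 ≤ (1 - τ / 2) + (-τ / 2 + τ ^ 2 / 12) * (e + a) + τ ^ 2 / 12 * (e ^ 2 + e * a + a ^ 2)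
      - τ ^ 4 / 720 * (e ^ 3 + e ^ 2 * a + e * a ^ 2 + a ^ 3)
      - τ ^ 4 / 720 * (e ^ 4 + e ^ 3 * a + e ^ 2 * a ^ 2 + e * a ^ 3 + a ^ 4) := by
    have b1 : e + a ≤ 2 := by linarith
    have b2 : 0 ≤ e ^ 2 + e * a + a ^ 2 := by positivity
    have pe : ∀ i j : ℕ, e ^ i * a ^ j ≤ 1 := fun i j =>
      mul_le_one₀ (pow_le_one₀ he0 he) (pow_nonneg ha j) (pow_le_one₀ ha ha1)
    have b3 : e ^ 3 + e ^ 2 * a + e * a ^ 2 + a ^ 3 ≤ 4 := by
      have := pe 3 0; have := pe 2 1; have := pe 1 2; have := pe 0 3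
      simp only [pow_zero, pow_one, mul_one, one_mul] at *
      linarith
    have b4 : e ^ 4 + e ^ 3 * a + e ^ 2 * a ^ 2 + e * a ^ 3 + a ^ 4 ≤ 5 := by
      have := pe 4 0; have := pe 3 1; have := pe 2 2; have := pe 1 3; have := pe 0 4
      simp only [pow_zero, pow_one, mul_one, one_mul] at *
      linarith
    have c1 : (-τ / 2 + τ ^ 2 / 12) * (e + a) ≥ (-τ / 2 + τ ^ 2 / 12) * 2 := by
      apply mul_le_mul_of_nonpos_left b1
      linarith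
    have c2 : 0 ≤ τ ^ 2 / 12 * (e ^ 2 + e * a + a ^ 2) := by positivity
    have c3 : τ ^ 4 / 720 * (e ^ 3 + e ^ 2 * a + e * a ^ 2 + a ^ 3) ≤ τ ^ 4 / 720 * 4 :=
      mul_le_mul_of_nonneg_left b3 (by positivity)
    have c4 : τ ^ 4 / 720 * (e ^ 4 + e ^ 3 * a + e ^ 2 * a ^ 2 + e * a ^ 3 + a ^ 4) ≤
        τ ^ 4 / 720 * 5 := mul_le_mul_of_nonneg_left b4 (by positivity)
    linarith
  have h3 := mul_nonneg (sub_nonneg.2 hae) key
  have h4 : (1 + e) * (1 - τ * e / 2 + (τ * e) ^ 2 / 12 - (τ * e) ^ 4 / 720) -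
      (1 + a) * (1 - τ * a / 2 + (τ * a) ^ 2 / 12 - (τ * a) ^ 4 / 720) =
      (e - a) * ((1 - τ / 2) + (-τ / 2 + τ ^ 2 / 12) * (e + a) + τ ^ 2 / 12 * (e ^ 2 + e * a + a ^ 2)
      - τ ^ 4 / 720 * (e ^ 3 + e ^ 2 * a + e * a ^ 2 + a ^ 3)
      - τ ^ 4 / 720 * (e ^ 4 + e ^ 3 * a + e ^ 2 * a ^ 2 + e * a ^ 3 + a ^ 4)) := by ring
  linarith

theorem gg_anti {a e : ℝ} (ha : 0 ≤ a) (hae : a ≤ e) (he : e ≤ 1) : gg e ≤ gg a := by
  have h1 : gg a - gg e = (e - a) * (21 / 20 - 59 / 100 * (e + a) +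
      11 / 50 * (e ^ 2 + e * a + a ^ 2)) := by
    unfold gg
    ring
  have h2 : 0 ≤ 21 / 20 - 59 / 100 * (e + a) + 11 / 50 * (e ^ 2 + e * a + a ^ 2) := by
    nlinarith [sq_nonneg (e - a), sq_nonneg (e + a - 9 / 5)]
  have h3 := mul_nonneg (sub_nonneg.2 hae) h2
  linarith

/-- the identity for `yh - P_0` -/
theorem q0_identity {e B : ℝ} (he : 0 < e) (hg : gg e ≠ 0) :
    ac / gg e * (B - e / (1 + e)) - (B + (B - 1) / e) / 2 =
      e * (-(ac / gg e * (1 / (1 + e) + Real.log 2 / 2 - 21 / 20 + 59 / 100 * e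
        - 22 / 100 * e ^ 2 - e * ((B - 1 + Real.log 2 * e / 2) / e ^ 2))) +
        (Real.log 2 / 2 - (B - 1 + Real.log 2 * e / 2) / e ^ 2 * (1 + e)) / 2) := by
  have h1 : (1 + e) ≠ 0 := by positivity
  have he' : e ≠ 0 := he.ne'
  have hgd : gg e = 1 - 21 / 20 * e + 59 / 100 * e ^ 2 - 11 / 50 * e ^ 3 := rfl
  have hac : ac = (2 - Real.log 2) / 4 := rfl
  field_simp
  rw [hac]
  rw [hgd]
  ring

/-- the data of an interval, for the points `e` of the interval -/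
structure Good (E0 E1 : ℕ) (e : ℝ) (YL YU YL2 YL3 YL4 YU2 YU4 YU5 YU6 y0 y04 : ℕ) : Prop where
  e0 : Lb e E0
  e1 : Ub e E1
  hE : E1 ≤ S
  hYL : Lb (Real.log 2 * e) YL
  hYU : Ub (Real.log 2 * e) YU
  hYL2 : Lb ((Real.log 2 * e) ^ 2) YL2
  hYL3 : Lb ((Real.log 2 * e) ^ 3) YL3
  hYL4 : Lb ((Real.log 2 * e) ^ 4) YL4
  hYU2 : Ub ((Real.log 2 * e) ^ 2) YU2
  hYU4 : Ub ((Real.log 2 * e) ^ 4) YU4
  hYU5 : Ub ((Real.log 2 * e) ^ 5) YU5
  hYU6 : Ub ((Real.log 2 * e) ^ 6) YU6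
  hz2 : Lb ((Real.log 2 * (E0 / S)) ^ 2) YL2
  hy0 : Ub (Real.log 2 * (E0 / S)) y0
  hy04 : Ub ((Real.log 2 * (E0 / S)) ^ 4) y04

theorem good_of {E0 E1 : ℕ} {e : ℝ} (he : 0 < e) (h0 : Lb e E0) (h1 : Ub e E1) (hE : E1 ≤ S) :
    Good E0 E1 e (yLo E0) (yHi E1) (yLo E0 * yLo E0 / S) (yLo E0 * yLo E0 / S * yLo E0 / S)
      (yLo E0 * yLo E0 / S * (yLo E0 * yLo E0 / S) / S) (yHi E1 * yHi E1 / S + 1)
      ((yHi E1 * yHi E1 / S + 1) * (yHi E1 * yHi E1 / S + 1) / S + 1)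
      (((yHi E1 * yHi E1 / S + 1) * (yHi E1 * yHi E1 / S + 1) / S + 1) * yHi E1 / S + 1)
      (((yHi E1 * yHi E1 / S + 1) * (yHi E1 * yHi E1 / S + 1) / S + 1) *
        (yHi E1 * yHi E1 / S + 1) / S + 1)
      (yHi E0) ((yHi E0 * yHi E0 / S + 1) * (yHi E0 * yHi E0 / S + 1) / S + 1) := by
  have hS := S_pos
  have ht : 0 < Real.log 2 := Real.log_pos (by norm_num)
  have hy : 0 ≤ Real.log 2 * e := by positivity
  have hE0 : (0 : ℝ) ≤ (E0 : ℝ) / S := by positivity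
  have hy0 : 0 ≤ Real.log 2 * (E0 / S) := by positivity
  have e0L : Lb ((E0 : ℝ) / S) E0 := by
    unfold Lb
    rw [div_mul_cancel₀ _ hS.ne']
  have e0U : Ub ((E0 : ℝ) / S) E0 := by
    unfold Ub
    rw [div_mul_cancel₀ _ hS.ne']
  have a1 : Lb (Real.log 2 * e) (yLo E0) := lb_log2.mul h0
  have a2 : Ub (Real.log 2 * e) (yHi E1) := ub_log2.mul h1 he.le
  have a3 := a1.mul a1
  have a4 := a3.mul a1
  have a5 := a3.mul a3
  have a6 := a2.mul a2 hy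
  have a7 := a6.mul a6 (by positivity)
  have a8 := a7.mul a2 hy
  have a9 := a7.mul a6 (by positivity)
  have b1 : Lb (Real.log 2 * (E0 / S)) (yLo E0) := lb_log2.mul e0L
  have b2 : Ub (Real.log 2 * (E0 / S)) (yHi E0) := ub_log2.mul e0U hE0
  have b3 := b1.mul b1
  have b4 := b2.mul b2 hy0
  have b5 := b4.mul b4 (by positivity)
  refine ⟨h0, h1, hE, a1, a2, ?_, ?_, ?_, ?_, ?_, ?_, ?_, ?_, b2, ?_⟩
  · convert a3 using 1; ring
  · convert a4 using 1; ring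
  · convert a5 using 1; ring
  · convert a6 using 1; ring
  · convert a7 using 1; ring
  · convert a8 using 1; ring
  · convert a9 using 1; ring
  · convert b3 using 1; ring
  · convert b5 using 1; ring

section
variable {E0 E1 : ℕ} {e : ℝ} {YL YU YL2 YL3 YL4 YU2 YU4 YU5 YU6 y0 y04 : ℕ} {s : Sc}

theorem Good.e_le (g : Good E0 E1 e YL YU YL2 YL3 YL4 YU2 YU4 YU5 YU6 y0 y04) : e ≤ 1 := by
  have h1 := g.e1
  unfold Ub at h1
  have h2 : (E1 : ℝ) ≤ S := by exact_mod_cast g.hE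
  have hS := S_pos
  nlinarith

theorem Good.E0_le (g : Good E0 E1 e YL YU YL2 YL3 YL4 YU2 YU4 YU5 YU6 y0 y04) :
    (E0 : ℝ) / S ≤ e := g.e0.div_le

/-- bounds of `B` -/
theorem Good.BU (g : Good E0 E1 e YL YU YL2 YL3 YL4 YU2 YU4 YU5 YU6 y0 y04) (he : 0 < e)
    (h : S + (YU2 / 12 + 1) + (YU6 / 30240 + 1) ≤ s.BU + YL / 2 + YL4 / 720) :
    Ub (Bb e) s.BU := by
  obtain ⟨_, hB⟩ := m6b e he g.e_le
  have c1 := g.hYU2.divc 12 (by norm_num)
  have c2 := g.hYU6.divc 30240 (by norm_num)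
  have c3 := g.hYL.divc 2 (by norm_num)
  have c4 := g.hYL4.divc 720 (by norm_num)
  unfold Ub Lb at *
  have h' : ((S + (YU2 / 12 + 1) + (YU6 / 30240 + 1) : ℕ) : ℝ) ≤
    ((s.BU + YL / 2 + YL4 / 720 : ℕ) : ℝ) := by exact_mod_cast h
  rw [Nat.cast_add, Nat.cast_add, Nat.cast_add, Nat.cast_add] at h'
  have hS := S_pos
  have h3 := mul_le_mul_of_nonneg_right hB hS.le
  push_cast at c1 c2 c3 c4 h' ⊢
  linarith


theorem Good.BL (g : Good E0 E1 e YL YU YL2 YL3 YL4 YU2 YU4 YU5 YU6 y0 y04) (he : 0 < e)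
    (h : s.BL + (YU / 2 + 1) + (YU4 / 720 + 1) ≤ S + YL2 / 12) :
    Lb (Bb e) s.BL := by
  obtain ⟨hB, _⟩ := m6b e he g.e_le
  have c1 := g.hYL2.divc 12 (by norm_num)
  have c3 := g.hYU.divc 2 (by norm_num)
  have c4 := g.hYU4.divc 720 (by norm_num)
  unfold Ub Lb at *
  have h' : ((s.BL + (YU / 2 + 1) + (YU4 / 720 + 1) : ℕ) : ℝ) ≤
    ((S + YL2 / 12 : ℕ) : ℝ) := by exact_mod_cast h
  rw [Nat.cast_add, Nat.cast_add, Nat.cast_add] at h'
  have hS := S_pos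
  have h3 := mul_le_mul_of_nonneg_right hB hS.le
  push_cast at c1 c3 c4 h' ⊢
  linarith

/-- upper bound of `P_0` -/
theorem Good.p (g : Good E0 E1 e YL YU YL2 YL3 YL4 YU2 YU4 YU5 YU6 y0 y04) (he : 0 < e)
    (h : S + (YU2 / 12 + 1) + (YU6 / 30240 + 1) + (T1 * YU / (12 * S) + 1)
      + (T1 * YU5 / (30240 * S) + 1) ≤ 2 * s.p + YL / 2 + YL4 / 720 + T0 / 2
      + T0 * YL3 / (720 * S)) :
    Ub (PC e 0) s.p := by
  obtain ⟨_, hB⟩ := m6b e he g.e_le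
  have ht : 0 < Real.log 2 := Real.log_pos (by norm_num)
  have c1 := g.hYU2.divc 12 (by norm_num)
  have c2 := g.hYU6.divc 30240 (by norm_num)
  have c3 := g.hYL.divc 2 (by norm_num)
  have c4 := g.hYL4.divc 720 (by norm_num)
  have c5 := ub_log2.muldiv g.hYU (by positivity) 12 (by norm_num)
  have c6 := ub_log2.muldiv g.hYU5 (by positivity) 30240 (by norm_num)
  have c7 := lb_log2.divc 2 (by norm_num)
  have c8 := lb_log2.muldiv g.hYL3 720 (by norm_num)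
  have h1 : (Bb e - 1) / e ≤ Real.log 2 * (-1 / 2 + (Real.log 2 * e) / 12 -
      (Real.log 2 * e) ^ 3 / 720 + (Real.log 2 * e) ^ 5 / 30240) := by
    rw [div_le_iff₀ he]
    have : Real.log 2 * (-1 / 2 + (Real.log 2 * e) / 12 -
      (Real.log 2 * e) ^ 3 / 720 + (Real.log 2 * e) ^ 5 / 30240) * e =
      - (Real.log 2 * e) / 2 + (Real.log 2 * e) ^ 2 / 12 - (Real.log 2 * e) ^ 4 / 720 +
      (Real.log 2 * e) ^ 6 / 30240 := by ring
    linarith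
  have h2 : PC e 0 = (Bb e + (Bb e - 1) / e) / 2 := rfl
  unfold Ub Lb at *
  have h' : ((S + (YU2 / 12 + 1) + (YU6 / 30240 + 1) + (T1 * YU / (12 * S) + 1)
      + (T1 * YU5 / (30240 * S) + 1) : ℕ) : ℝ) ≤
    ((2 * s.p + YL / 2 + YL4 / 720 + T0 / 2 + T0 * YL3 / (720 * S) : ℕ) : ℝ) := by
    exact_mod_cast h
  simp only [Nat.cast_add (R := ℝ), Nat.cast_mul (α := ℝ) 2] at h'
  have hS := S_pos
  have h3 := mul_le_mul_of_nonneg_right hB hS.le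
  have h4 := mul_le_mul_of_nonneg_right h1 hS.le
  rw [h2]
  push_cast at c1 c2 c3 c4 c5 c6 c7 c8 h' ⊢
  linarith

/-- lower bound of `(1+e) B` -/
theorem Good.r (g : Good E0 E1 e YL YU YL2 YL3 YL4 YU2 YU4 YU5 YU6 y0 y04) (he : 0 < e)
    (h : s.h0 + (y0 / 2 + 1) + (y04 / 720 + 1) ≤ S + YL2 / 12)
    (h' : s.r * S ≤ (S + E0) * s.h0) :
    Lb ((1 + e) * Bb e) s.r := by
  obtain ⟨hB, _⟩ := m6b e he g.e_le
  have ht0 : 0.693147 < Real.log 2 := by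
    have := Real.log_two_gt_d9
    linarith
  have ht1 : Real.log 2 < 0.693148 := by
    have := Real.log_two_lt_d9
    linarith
  have hS := S_pos
  have hE0 : (0 : ℝ) ≤ (E0 : ℝ) / S := by positivity
  have c1 := g.hz2.divc 12 (by norm_num)
  have c3 := g.hy0.divc 2 (by norm_num)
  have c4 := g.hy04.divc 720 (by norm_num)
  have hmono := F_mono ht0 ht1 hE0 g.E0_le g.e_le
  have h1 : Lb (1 - Real.log 2 * (E0 / S) / 2 + (Real.log 2 * (E0 / S)) ^ 2 / 12 -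
      (Real.log 2 * (E0 / S)) ^ 4 / 720) s.h0 := by
    unfold Ub Lb at *
    have h'' : ((s.h0 + (y0 / 2 + 1) + (y04 / 720 + 1) : ℕ) : ℝ) ≤
      ((S + YL2 / 12 : ℕ) : ℝ) := by exact_mod_cast h
    rw [Nat.cast_add, Nat.cast_add, Nat.cast_add] at h''
    push_cast at c1 c3 c4 h'' ⊢
    linarith
  have h2 : Lb ((1 + (E0 : ℝ) / S) * (1 - Real.log 2 * (E0 / S) / 2 +
      (Real.log 2 * (E0 / S)) ^ 2 / 12 - (Real.log 2 * (E0 / S)) ^ 4 / 720)) s.r := by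
    unfold Lb at h1 ⊢
    have h3 : (s.r : ℝ) * S ≤ (S + E0) * s.h0 := by exact_mod_cast h'
    have h4 : (s.r : ℝ) ≤ (1 + (E0 : ℝ) / S) * s.h0 := by
      have : (1 + (E0 : ℝ) / S) * s.h0 = (S + E0) * s.h0 / S := by
        field_simp
      rw [this, le_div_iff₀ hS]
      exact h3
    refine h4.trans ?_
    rw [mul_assoc]
    exact mul_le_mul_of_nonneg_left h1 (by positivity)
  refine h2.mono (hmono.trans ?_)
  exact mul_le_mul_of_nonneg_left hB (by positivity)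

/-- lower bound of `g` -/
theorem Good.gL (g : Good E0 E1 e YL YU YL2 YL3 YL4 YU2 YU4 YU5 YU6 y0 y04) (he : 0 < e)
    (h : s.gL * (100 * S ^ 2) + 105 * E1 * S ^ 2 + 22 * E1 ^ 3 ≤
      100 * S ^ 3 + 59 * E1 ^ 2 * S) : Lb (gg e) s.gL := by
  have hS := S_pos
  have h1 : e ≤ (E1 : ℝ) / S := g.e1.le_div
  have h2 : (E1 : ℝ) / S ≤ 1 := by
    rw [div_le_one hS]
    exact_mod_cast g.hE
  refine Lb.mono ?_ (gg_anti he.le h1 h2)
  unfold Lb gg
  have h' : (s.gL : ℝ) * (100 * S ^ 2) + 105 * E1 * S ^ 2 + 22 * E1 ^ 3 ≤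
      100 * S ^ 3 + 59 * E1 ^ 2 * S := by exact_mod_cast h
  have h3 : (1 - 21 / 20 * ((E1 : ℝ) / S) + 59 / 100 * ((E1 : ℝ) / S) ^ 2 -
      11 / 50 * ((E1 : ℝ) / S) ^ 3) * S =
      (100 * S ^ 3 + 59 * E1 ^ 2 * S - (105 * E1 * S ^ 2 + 22 * E1 ^ 3)) / (100 * S ^ 2) := by
    field_simp
    ring
  rw [h3, le_div_iff₀ (by positivity)]
  linarith

/-- upper bound of `g` -/
theorem Good.gU (g : Good E0 E1 e YL YU YL2 YL3 YL4 YU2 YU4 YU5 YU6 y0 y04)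
    (h : 100 * S ^ 3 + 59 * E0 ^ 2 * S ≤
      s.gU * (100 * S ^ 2) + 105 * E0 * S ^ 2 + 22 * E0 ^ 3) : Ub (gg e) s.gU := by
  have hS := S_pos
  have hE0 : (0 : ℝ) ≤ (E0 : ℝ) / S := by positivity
  refine Ub.mono ?_ (gg_anti hE0 g.E0_le g.e_le)
  unfold Ub gg
  have h' : 100 * (S : ℝ) ^ 3 + 59 * E0 ^ 2 * S ≤
      s.gU * (100 * S ^ 2) + 105 * E0 * S ^ 2 + 22 * E0 ^ 3 := by exact_mod_cast h
  have h3 : (1 - 21 / 20 * ((E0 : ℝ) / S) + 59 / 100 * ((E0 : ℝ) / S) ^ 2 -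
      11 / 50 * ((E0 : ℝ) / S) ^ 3) * S =
      (100 * S ^ 3 + 59 * E0 ^ 2 * S - (105 * E0 * S ^ 2 + 22 * E0 ^ 3)) / (100 * S ^ 2) := by
    field_simp
    ring
  rw [h3, div_le_iff₀ (by positivity)]
  linarith

/-- upper bound of `B - e/(1+e)` -/
theorem Good.DU (g : Good E0 E1 e YL YU YL2 YL3 YL4 YU2 YU4 YU5 YU6 y0 y04) (he : 0 < e)
    (hB : Ub (Bb e) s.BU) (h : s.BU * (S + E0) ≤ s.DU * (S + E0) + E0 * S) :
    Ub (Bb e - e / (1 + e)) s.DU := by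
  have hS := S_pos
  have hE0 : (0 : ℝ) ≤ (E0 : ℝ) / S := by positivity
  have h1 := g.E0_le
  have h2 : (E0 : ℝ) / (S + E0) ≤ e / (1 + e) := by
    rw [div_le_div_iff₀ (by positivity) (by positivity)]
    rw [div_le_iff₀ hS] at h1
    nlinarith
  have h' : (s.BU : ℝ) * (S + E0) ≤ s.DU * (S + E0) + E0 * S := by exact_mod_cast h
  have h3 : (s.BU : ℝ) - E0 * S / (S + E0) ≤ s.DU := by
    rw [sub_le_iff_le_add, ← sub_le_iff_le_add', le_div_iff₀ (by positivity)]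
    linarith
  unfold Ub at *
  have h4 : (E0 : ℝ) * S / (S + E0) ≤ e / (1 + e) * S := by
    have := mul_le_mul_of_nonneg_right h2 hS.le
    calc (E0 : ℝ) * S / (S + E0) = E0 / (S + E0) * S := by ring
      _ ≤ _ := this
  rw [sub_mul]
  linarith

/-- lower bound of `B - e/(1+e)` -/
theorem Good.DL (g : Good E0 E1 e YL YU YL2 YL3 YL4 YU2 YU4 YU5 YU6 y0 y04) (he : 0 < e)
    (hB : Lb (Bb e) s.BL) (h : s.DL * (S + E1) + E1 * S ≤ s.BL * (S + E1)) :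
    Lb (Bb e - e / (1 + e)) s.DL := by
  have hS := S_pos
  have h1 := g.e1.le_div
  have h2 : e / (1 + e) ≤ (E1 : ℝ) / (S + E1) := by
    rw [div_le_div_iff₀ (by positivity) (by positivity)]
    rw [le_div_iff₀ hS] at h1
    nlinarith
  have h' : (s.DL : ℝ) * (S + E1) + E1 * S ≤ s.BL * (S + E1) := by exact_mod_cast h
  have h3 : (s.DL : ℝ) ≤ s.BL - E1 * S / (S + E1) := by
    rw [le_sub_iff_add_le, ← le_sub_iff_add_le', div_le_iff₀ (by positivity)]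
    linarith
  unfold Lb at *
  have h4 : e / (1 + e) * S ≤ (E1 : ℝ) * S / (S + E1) := by
    have := mul_le_mul_of_nonneg_right h2 hS.le
    calc e / (1 + e) * S ≤ (E1 : ℝ) / (S + E1) * S := this
      _ = _ := by ring
  rw [sub_mul]
  linarith


/-- upper bound of `yh` -/
theorem Good.yU (_g : Good E0 E1 e YL YU YL2 YL3 YL4 YU2 YU4 YU5 YU6 y0 y04)
    (hg : Lb (gg e) s.gL) (hg1 : 1 ≤ s.gL) (hD : Ub (Bb e - e / (1 + e)) s.DU)
    (h : acU * s.DU ≤ s.yU * s.gL) : Ub (yh e) s.yU := by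
  have hS := S_pos
  have hg1' : (1 : ℝ) ≤ s.gL := by exact_mod_cast hg1
  have hgp : 0 < gg e := lt_of_lt_of_le (by positivity) hg.div_le
  have h' : (acU : ℝ) * s.DU ≤ s.yU * s.gL := by exact_mod_cast h
  have hac := ub_ac
  have hac0 := lb_ac.nonneg
  have h1 : yh e = ac * (Bb e - e / (1 + e)) / gg e := by
    unfold yh
    ring
  unfold Ub Lb at *
  rw [h1, div_mul_eq_mul_div, div_le_iff₀ hgp]
  -- ac * D * S ≤ yU * g
  have h2 : ac * (Bb e - e / (1 + e)) * S ≤ ac * s.DU := by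
    rw [mul_assoc]
    exact mul_le_mul_of_nonneg_left hD hac0
  refine h2.trans ?_
  have h3 : ac * s.DU * S ≤ s.yU * gg e * S := by
    calc ac * s.DU * S = (ac * S) * s.DU := by ring
      _ ≤ acU * s.DU := mul_le_mul_of_nonneg_right hac (Nat.cast_nonneg _)
      _ ≤ s.yU * s.gL := h'
      _ ≤ s.yU * (gg e * S) := mul_le_mul_of_nonneg_left hg (Nat.cast_nonneg _)
      _ = _ := by ring
  exact le_of_mul_le_mul_right h3 hS

/-- lower bound of `yh` -/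
theorem Good.yL (_g : Good E0 E1 e YL YU YL2 YL3 YL4 YU2 YU4 YU5 YU6 y0 y04)
    (hg : Lb (gg e) s.gL) (hg1 : 1 ≤ s.gL) (hgU : Ub (gg e) s.gU)
    (hD : Lb (Bb e - e / (1 + e)) s.DL)
    (h : s.yL * s.gU ≤ acL * s.DL) : Lb (yh e) s.yL := by
  have hS := S_pos
  have hg1' : (1 : ℝ) ≤ s.gL := by exact_mod_cast hg1
  have hgp : 0 < gg e := lt_of_lt_of_le (by positivity) hg.div_le
  have h' : (s.yL : ℝ) * s.gU ≤ acL * s.DL := by exact_mod_cast h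
  have hac := lb_ac
  have hac0 := lb_ac.nonneg
  have h1 : yh e = ac * (Bb e - e / (1 + e)) / gg e := by
    unfold yh
    ring
  unfold Ub Lb at *
  rw [h1, div_mul_eq_mul_div, le_div_iff₀ hgp]
  have h2 : ac * s.DL ≤ ac * (Bb e - e / (1 + e)) * S := by
    rw [mul_assoc ac (Bb e - e / (1 + e))]
    exact mul_le_mul_of_nonneg_left hD hac0
  refine le_trans ?_ h2
  have h3 : s.yL * gg e * S ≤ ac * s.DL * S := by
    calc s.yL * gg e * S = s.yL * (gg e * S) := by ring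
      _ ≤ s.yL * s.gU := mul_le_mul_of_nonneg_left hgU (Nat.cast_nonneg _)
      _ ≤ acL * s.DL := h'
      _ ≤ (ac * S) * s.DL := mul_le_mul_of_nonneg_right hac (Nat.cast_nonneg _)
      _ = _ := by ring
  exact le_of_mul_le_mul_right h3 hS

/-- lower bound of `β = (1+e)(B + τ e)` -/
theorem Good.bL (g : Good E0 E1 e YL YU YL2 YL3 YL4 YU2 YU4 YU5 YU6 y0 y04) (he : 0 < e)
    (h : s.wL + (YU4 / 720 + 1) ≤ S + YL / 2 + YL2 / 12) (h' : s.bL * S ≤ (S + E0) * s.wL) :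
    Lb ((1 + e) * (Bb e + Real.log 2 * e)) s.bL := by
  obtain ⟨hB, _⟩ := m6b e he g.e_le
  have hS := S_pos
  have c1 := g.hYL2.divc 12 (by norm_num)
  have c3 := g.hYL.divc 2 (by norm_num)
  have c4 := g.hYU4.divc 720 (by norm_num)
  have h1 : Lb (Bb e + Real.log 2 * e) s.wL := by
    unfold Ub Lb at *
    have h'' : ((s.wL + (YU4 / 720 + 1) : ℕ) : ℝ) ≤
      ((S + YL / 2 + YL2 / 12 : ℕ) : ℝ) := by exact_mod_cast h
    rw [Nat.cast_add, Nat.cast_add, Nat.cast_add] at h''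
    have h3 := mul_le_mul_of_nonneg_right hB hS.le
    push_cast at c1 c3 c4 h'' ⊢
    linarith
  have h2 : (s.bL : ℝ) * S ≤ (S + E0) * s.wL := by exact_mod_cast h'
  have h0 := g.E0_le
  unfold Lb at *
  have h4 : (s.bL : ℝ) ≤ (1 + (E0 : ℝ) / S) * s.wL := by
    have : (1 + (E0 : ℝ) / S) * s.wL = (S + E0) * s.wL / S := by
      field_simp
    rw [this, le_div_iff₀ hS]
    exact h2
  refine h4.trans ?_
  rw [mul_assoc]
  exact mul_le_mul (by linarith) h1 (Nat.cast_nonneg _) (by positivity)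

/-- upper bound of `β = (1+e)(B + τ e)` -/
theorem Good.bU (g : Good E0 E1 e YL YU YL2 YL3 YL4 YU2 YU4 YU5 YU6 y0 y04) (he : 0 < e)
    (h : S + (YU / 2 + 1) + (YU2 / 12 + 1) + (YU6 / 30240 + 1) ≤ s.wU + YL4 / 720)
    (h' : (S + E1) * s.wU ≤ s.bU * S) :
    Ub ((1 + e) * (Bb e + Real.log 2 * e)) s.bU := by
  obtain ⟨_, hB⟩ := m6b e he g.e_le
  have hS := S_pos
  have c1 := g.hYU2.divc 12 (by norm_num)
  have c2 := g.hYU6.divc 30240 (by norm_num)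
  have c3 := g.hYU.divc 2 (by norm_num)
  have c4 := g.hYL4.divc 720 (by norm_num)
  have h1 : Ub (Bb e + Real.log 2 * e) s.wU := by
    unfold Ub Lb at *
    have h'' : ((S + (YU / 2 + 1) + (YU2 / 12 + 1) + (YU6 / 30240 + 1) : ℕ) : ℝ) ≤
      ((s.wU + YL4 / 720 : ℕ) : ℝ) := by exact_mod_cast h
    rw [Nat.cast_add, Nat.cast_add, Nat.cast_add, Nat.cast_add] at h''
    have h3 := mul_le_mul_of_nonneg_right hB hS.le
    push_cast at c1 c2 c3 c4 h'' ⊢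
    linarith
  have h2 : (S + E1 : ℝ) * s.wU ≤ s.bU * S := by exact_mod_cast h'
  have h0 := g.e1.le_div
  unfold Ub at *
  have h4 : (1 + (E1 : ℝ) / S) * s.wU ≤ s.bU := by
    have : (1 + (E1 : ℝ) / S) * s.wU = (S + E1) * s.wU / S := by
      field_simp
    rw [this, div_le_iff₀ hS]
    exact h2
  refine le_trans ?_ h4
  rw [mul_assoc]
  refine (mul_le_mul_of_nonneg_left h1 (by positivity)).trans ?_
  exact mul_le_mul_of_nonneg_right (by linarith) (Nat.cast_nonneg _)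

/-- bounds of `c / β²` -/
theorem ub_div_sq {β : ℝ} {bL h : ℕ} (c : ℕ) (hb : Lb β bL) (hb1 : 1 ≤ bL)
    (hh : c * S ^ 3 ≤ h * (10000 * bL ^ 2)) : Ub ((c / 10000 : ℝ) / β ^ 2) h := by
  have hS := S_pos
  have hb1' : (1 : ℝ) ≤ bL := by exact_mod_cast hb1
  have hβ : 0 < β := lt_of_lt_of_le (by positivity) hb.div_le
  have h' : (c : ℝ) * S ^ 3 ≤ h * (10000 * bL ^ 2) := by exact_mod_cast hh
  unfold Ub Lb at *
  rw [div_mul_eq_mul_div, div_le_iff₀ (by positivity)]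
  have h1 : (bL : ℝ) ^ 2 ≤ (β * S) ^ 2 := by gcongr
  have h2 : (c : ℝ) * S ^ 3 ≤ h * (10000 * (β * S) ^ 2) := by
    refine h'.trans ?_
    gcongr
  have h3 : (c / 10000 * S : ℝ) * (10000 * S ^ 2) ≤ (h * β ^ 2) * (10000 * S ^ 2) := by
    calc (c / 10000 * S : ℝ) * (10000 * S ^ 2) = c * S ^ 3 := by ring
      _ ≤ _ := h2
      _ = _ := by ring
  exact le_of_mul_le_mul_right h3 (by positivity)

theorem lb_div_sq {β : ℝ} {bU h : ℕ} (c : ℕ) (hβ : 0 < β) (hb : Ub β bU)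
    (hh : h * (10000 * bU ^ 2) ≤ c * S ^ 3) : Lb ((c / 10000 : ℝ) / β ^ 2) h := by
  have hS := S_pos
  have h' : (h : ℝ) * (10000 * bU ^ 2) ≤ c * S ^ 3 := by exact_mod_cast hh
  unfold Ub Lb at *
  rw [div_mul_eq_mul_div, le_div_iff₀ (by positivity)]
  have h1 : (β * S) ^ 2 ≤ (bU : ℝ) ^ 2 := by gcongr
  have h2 : h * (10000 * (β * S) ^ 2) ≤ (c : ℝ) * S ^ 3 := by
    refine le_trans ?_ h'
    gcongr
  have h3 : ((h : ℝ) * β ^ 2) * (10000 * S ^ 2) ≤ (c / 10000 * S : ℝ) * (10000 * S ^ 2) := by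
    calc ((h : ℝ) * β ^ 2) * (10000 * (S : ℝ) ^ 2) = (h : ℝ) * (10000 * (β * S) ^ 2) := by ring
      _ ≤ (c : ℝ) * (S : ℝ) ^ 3 := h2
      _ = _ := by ring
  exact le_of_mul_le_mul_right h3 (by positivity)

theorem rh_eq (e : ℝ) : rh e = ((1048 : ℕ) / 10000 : ℝ) / ((1 + e) * (Bb e + Real.log 2 * e)) ^ 2 := by
  unfold rh wlo
  norm_num

theorem dr_eq (e : ℝ) : dr e = ((3872 : ℕ) / 10000 : ℝ) / ((1 + e) * (Bb e + Real.log 2 * e)) ^ 2 := by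
  unfold dr wlo whi
  norm_num

/-- nonnegativity of `q_0` -/
theorem Good.q0 (g : Good E0 E1 e YL YU YL2 YL3 YL4 YU2 YU4 YU5 YU6 y0 y04) (he : 0 < e)
    (hg : Lb (gg e) s.gL) (hg1 : 1 ≤ s.gL) (hd : Ub (dr e) s.dU)
    (h1 : s.b0 + ((T1 * T1 / S + 1) * YU2 / (720 * S) + 1) ≤ T0 * T0 / (12 * S))
    (h2 : (S * S / (S + E0) + 1) + (T1 / 2 + 1) + (59 * E1 / 100 + 1) ≤
      s.mu + 21 * S / 20 + 22 * E0 ^ 2 / (100 * S) + E0 * s.b0 / S)
    (h3 : 2 * (acU * s.mu / s.gL + 1) + ((T1 * T1 / (12 * S) + 1) * (S + E1) / S + 1) +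
      2 * (s.dU / 12 + 1) ≤ T0 / 2) :
    0 ≤ yh e - PC e 0 - e * dr e / 12 := by
  obtain ⟨hB0, hB1⟩ := m6b e he g.e_le
  have hS := S_pos
  have ht : 0 < Real.log 2 := Real.log_pos (by norm_num)
  have he1 := g.e_le
  have hg1' : (1 : ℝ) ≤ s.gL := by exact_mod_cast hg1
  have hgp : 0 < gg e := lt_of_lt_of_le (by positivity) hg.div_le
  set b : ℝ := (Bb e - 1 + Real.log 2 * e / 2) / e ^ 2 with hb
  have hy1 : Real.log 2 * e ≤ 1 := by
    have := Real.log_two_lt_d9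
    nlinarith
  have hbU : b ≤ Real.log 2 * Real.log 2 / 12 := by
    rw [hb, div_le_iff₀ (by positivity)]
    have h4 : (Real.log 2 * e) ^ 6 ≤ (Real.log 2 * e) ^ 4 := by
      apply pow_le_pow_of_le_one (by positivity) hy1 (by norm_num)
    have h5 : (0 : ℝ) ≤ (Real.log 2 * e) ^ 4 := by positivity
    nlinarith
  have hbL : Real.log 2 * Real.log 2 / 12 - (Real.log 2 * Real.log 2) * (Real.log 2 * e) ^ 2 / 720
      ≤ b := by
    rw [hb, le_div_iff₀ (by positivity)]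
    have : (Real.log 2 * Real.log 2 / 12 - (Real.log 2 * Real.log 2) * (Real.log 2 * e) ^ 2 / 720)
      * e ^ 2 = (Real.log 2 * e) ^ 2 / 12 - (Real.log 2 * e) ^ 4 / 720 := by ring
    linarith
  have k1 := lb_log2.muldiv lb_log2 12 (by norm_num)
  have k2 := (ub_log2.mul ub_log2 ht.le).muldiv g.hYU2 (by positivity) 720 (by norm_num)
  have hb0 : Lb b s.b0 := by
    refine Lb.mono ?_ hbL
    unfold Ub Lb at *
    have h' : ((s.b0 + ((T1 * T1 / S + 1) * YU2 / (720 * S) + 1) : ℕ) : ℝ) ≤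
      ((T0 * T0 / (12 * S) : ℕ) : ℝ) := by exact_mod_cast h1
    rw [Nat.cast_add] at h'
    push_cast at k1 k2 h' ⊢
    linarith
  have hbn : 0 ≤ b := hb0.nonneg
  set κ : ℝ := 1 / (1 + e) + Real.log 2 / 2 - 21 / 20 + 59 / 100 * e
        - 22 / 100 * e ^ 2 - e * b with hκ
  have hκU : Ub κ s.mu := by
    have m1 : Ub (1 / (1 + e)) (S * S / (S + E0) + 1) := by
      have h4 : 1 / (1 + e) * S ≤ ((S * S : ℕ) : ℝ) / ((S + E0 : ℕ) : ℝ) := by
        push_cast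
        rw [div_mul_eq_mul_div, one_mul, div_le_div_iff₀ (by positivity) (by positivity)]
        have h5 := g.e0
        unfold Lb at h5
        nlinarith
      exact h4.trans (le_cdiv _ _ (by
        have : 0 < S := by norm_num [S]
        omega))
    have m2 := ub_log2.divc 2 (by norm_num)
    have m3 : Ub (59 / 100 * e) (59 * E1 / 100 + 1) := by
      have h5 := g.e1
      unfold Ub at h5 ⊢
      refine le_trans ?_ (le_cdiv _ _ (by norm_num))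
      push_cast
      linarith
    have m4 : Lb (21 / 20) (21 * S / 20) := by
      unfold Lb
      refine (cdiv_le _ _).trans ?_
      push_cast
      linarith
    have m5 : Lb (22 / 100 * e ^ 2) (22 * E0 ^ 2 / (100 * S)) := by
      have h5 := g.e0
      unfold Lb at h5 ⊢
      refine (cdiv_le _ _).trans ?_
      push_cast
      rw [div_le_iff₀ (by positivity)]
      have h6 : (E0 : ℝ) ^ 2 ≤ (e * S) ^ 2 := by gcongr
      calc 22 * (E0 : ℝ) ^ 2 ≤ 22 * (e * S) ^ 2 := by gcongr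
        _ = _ := by ring
    have m6 := g.e0.mul hb0
    unfold Ub Lb at *
    have h' : (((S * S / (S + E0) + 1) + (T1 / 2 + 1) + (59 * E1 / 100 + 1) : ℕ) : ℝ) ≤
      ((s.mu + 21 * S / 20 + 22 * E0 ^ 2 / (100 * S) + E0 * s.b0 / S : ℕ) : ℝ) := by
      exact_mod_cast h2
    rw [Nat.cast_add, Nat.cast_add, Nat.cast_add _ (E0 * s.b0 / S),
      Nat.cast_add _ (22 * E0 ^ 2 / (100 * S)), Nat.cast_add s.mu] at h'
    rw [hκ]
    push_cast at m2 h' ⊢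
    push_cast at m1 m3 m4 m5 m6
    linarith
  have hq := q0_identity (B := Bb e) he hgp.ne'
  rw [← hb] at hq
  have hyh : yh e = ac / gg e * (Bb e - e / (1 + e)) := rfl
  have hP0 : PC e 0 = (Bb e + (Bb e - 1) / e) / 2 := rfl
  rw [hyh, hP0, hq, ← hκ]
  have hfin : e * (-(ac / gg e * κ) + (Real.log 2 / 2 - b * (1 + e)) / 2) - e * dr e / 12 =
      e * (-(ac / gg e * κ) + (Real.log 2 / 2 - b * (1 + e)) / 2 - dr e / 12) := by ring
  rw [hfin]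
  apply mul_nonneg he.le
  -- bounds of the three terms
  have n1 : ac / gg e * κ * S ≤ ((acU * s.mu / s.gL + 1 : ℕ) : ℝ) := by
    have hac := ub_ac
    have hac0 := lb_ac.nonneg
    unfold Ub Lb at *
    have h4 : ac / gg e * κ * S ≤ ((acU * s.mu : ℕ) : ℝ) / (s.gL : ℝ) := by
      rw [le_div_iff₀ (by positivity)]
      have h5 : ac / gg e * κ * S ≤ ac / gg e * s.mu := by
        rw [mul_assoc]
        exact mul_le_mul_of_nonneg_left hκU (by positivity)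
      have h6 : ac / gg e * s.mu * s.gL ≤ acU * s.mu := by
        calc ac / gg e * s.mu * s.gL ≤ ac / gg e * s.mu * (gg e * S) :=
              mul_le_mul_of_nonneg_left hg (by positivity)
          _ = (ac * S) * s.mu := by field_simp
          _ ≤ _ := mul_le_mul_of_nonneg_right hac (Nat.cast_nonneg _)
      push_cast
      refine le_trans ?_ h6
      exact mul_le_mul_of_nonneg_right h5 (Nat.cast_nonneg _)
    exact h4.trans (le_cdiv _ _ (by omega))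
  have n2 : Ub (b * (1 + e)) ((T1 * T1 / (12 * S) + 1) * (S + E1) / S + 1) := by
    have p1 := ub_log2.muldiv ub_log2 ht.le 12 (by norm_num)
    have p1' : Ub b (T1 * T1 / (12 * S) + 1) := p1.mono (by exact_mod_cast hbU)
    have p2 : Ub (1 + e) (S + E1) := by
      have h5 := g.e1
      unfold Ub at h5 ⊢
      push_cast
      linarith
    exact p1'.mul p2 (by positivity)
  have n3 := hd.divc 12 (by norm_num)
  have n4 := lb_log2.divc 2 (by norm_num)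
  unfold Ub Lb at *
  have h' : ((2 * (acU * s.mu / s.gL + 1) + ((T1 * T1 / (12 * S) + 1) * (S + E1) / S + 1) +
      2 * (s.dU / 12 + 1) : ℕ) : ℝ) ≤ ((T0 / 2 : ℕ) : ℝ) := by exact_mod_cast h3
  rw [Nat.cast_add, Nat.cast_add, Nat.cast_mul, Nat.cast_mul 2 (s.dU / 12 + 1)] at h'
  have hres : 0 ≤ (-(ac / gg e * κ) + (Real.log 2 / 2 - b * (1 + e)) / 2 - dr e / 12) * S := by
    push_cast at n3 n4 h' ⊢
    push_cast at n1 n2
    linarith
  exact nonneg_of_mul_nonneg_left hres hS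

/-- Soundness of the scalar data. -/
theorem okSc_sound {E0 E1 : ℕ} {s : Sc} (h : okSc E0 E1 s = true) (hE : E1 ≤ S) {e : ℝ}
    (he : 0 < e) (h0 : Lb e E0) (h1 : Ub e E1) :
    Ub (PC e 0) s.p ∧ Lb ((1 + e) * Bb e) s.r ∧ Lb (yh e) s.yL ∧ Ub (yh e) s.yU ∧
      Lb (rh e) s.hL ∧ Ub (rh e) s.hU ∧ Ub (dr e) s.dU ∧ 0 ≤ dr e ∧
      0 ≤ yh e - PC e 0 - e * dr e / 12 := by
  have g := good_of he h0 h1 hE
  unfold okSc okSc' at h
  simp only [Bool.and_eq_true, Nat.ble_eq] at h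
  obtain ⟨a1, a2, a3, a4, a5, a6, a7, a8, a9, a10, a11, a12, a13, a14, a15, a16, a17, a18, a19,
    a20, a21, a22, a23⟩ := h
  have hBU := g.BU he a1
  have hBL := g.BL he a2
  have hp := g.p he a3
  have hr := g.r he a4 a5
  have hgL := g.gL he a6
  have hgU := g.gU a7
  have hDU := g.DU he hBU a8
  have hDL := g.DL he hBL a9
  have hyU := g.yU hgL a10 hDU a11
  have hyL := g.yL hgL a10 hgU hDL a12
  have hbL := g.bL he a13 a15
  have hbU := g.bU he a14 a16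
  have hS := S_pos
  have ha17 : (1 : ℝ) ≤ s.bL := by exact_mod_cast a17
  have hβ : 0 < (1 + e) * (Bb e + Real.log 2 * e) :=
    lt_of_lt_of_le (by positivity) hbL.div_le
  have hhU : Ub (rh e) s.hU := by
    rw [rh_eq]
    exact ub_div_sq 1048 hbL a17 a18
  have hhL : Lb (rh e) s.hL := by
    rw [rh_eq]
    exact lb_div_sq 1048 hβ hbU a19
  have hdU : Ub (dr e) s.dU := by
    rw [dr_eq]
    exact ub_div_sq 3872 hbL a17 a20
  have hd0 : 0 ≤ dr e := by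
    rw [dr_eq]
    positivity
  exact ⟨hp, hr, hyL, hyU, hhL, hhU, hdU, hd0, g.q0 he hgL a10 hdU a21 a22 a23⟩

end

end Pool.Agent.H58.Tal.R1c
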