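import Pool.Agent.H77.Tal.Scal

/-!
# M6R1c, part 3: soundness of the sequence computations
-/

set_option autoImplicit false

open Finset Real

namespace Pool.Agent.H58.Tal.R1c

/-- scalar product of lists -/
def dot : List ℕ → List ℕ → ℕ
  | a :: L, b :: M => a * b + dot L M
  | _, _ => 0

/-- upper bounds of `P_i x^i` -/
def pList (E1 p r : ℕ) : List ℕ → ℕ → ℕ → ℕ → ℕ → List ℕ
  | [], _, _, _, _ => []
  | x :: xs, n, Pi, kap, P =>
    let kap' := kap + Pi * ((4 * n + 3) * S - E1) / ((2 * n + 1) * (2 * n + 2) * S)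
    let Pi' := Pi * (((2 * n + 1) * S - E1) * ((2 * n + 2) * S - E1)) /
      ((2 * n + 1) * (2 * n + 2) * S * S)
    let D := (2 * (n + 2)) * (2 * n + 3)
    (P * x / S + 1) :: pList E1 p r xs (n + 1) Pi' kap'
      ((P * D + 2 * p - r * kap' / S) / D + 1)

/-- upper bounds of `G_i x^i` -/
def gList (ey eer ed eed : ℕ) (Y W : List ℕ) : List ℕ → List ℕ → List ℕ → ℕ → List ℕ
  | P :: pp, o :: os, rev, prev =>
    (P + (ey * (dot (P :: rev) Y / S + 1) / S + 1) + (eer * (dot (P :: rev) W / S + 1) / S + 1) +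
      (ed * o / S + 1) + (eed * prev / S + 1)) :: gList ey eer ed eed Y W pp os (P :: rev) P
  | _, _, _, _ => []

/-- lower bounds of `A_i x^i` -/
def aList (y er : ℕ) : List ℕ → List ℕ → List ℕ
  | l :: ls, k :: ks => (y * l / S + er * k / S) :: aList y er ls ks
  | _, _ => []

/-- comparison of partial sums -/
def cmp : List ℕ → List ℕ → ℕ → ℕ → Bool
  | a :: as, g :: gs, A, G => Nat.ble (G + g) (A + a) && cmp as gs (A + a) (G + g)
  | _, _, _, _ => true

/-- the constants of a regime -/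
structure Kc where
  xp : List ℕ
  lo : List ℕ
  ko : List ℕ
  y1 : List ℕ
  w1 : List ℕ
  os : List ℕ
  yX : ℕ
  wX : ℕ
  oX : ℕ
  xN : ℕ
  xD : ℕ
  J : ℕ

/-- the complete check of one interval -/
def chkM (k : Kc) (E0 E1 p r yL yU hL hU dU : ℕ) : Bool :=
  let er := E1 * hU / S + 1
  let eer := E1 * er / S + 1
  let ed := E1 * dU / S + 1
  let eed := (E1 * ed / S + 1) * k.xN / (6 * k.xD) + 1
  let pp := pList E1 p r k.xp 0 S 0 p
  let gs := gList (E1 * yU / S + 1) eer ed eed k.y1 k.w1 pp k.os [] 0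
  let as := aList yL (E0 * hL / S) k.lo k.ko
  let Pup := (pp.take (k.J + 1)).sum + ((pp.getD (k.J + 1) 0) * k.xD / (k.xD - k.xN) + 1)
  let ez := E1 * ((yU * k.yX / S + 1) + (er * k.wX / S + 1)) / S + 1
  (match gs, as with
  | g0 :: gs, a0 :: as => cmp as gs a0 g0
  | _, _ => false) &&
  Nat.ble (Pup + (Pup * ez / S + 1) + (ed * k.oX / S + 1) + (eed * Pup / S + 1))
    (as.take (k.J + 1)).sum

/-- the complete check of one interval -/
def chk (k : Kc) (E0 E1 : ℕ) : Bool :=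
  let s := scal E0 E1
  okSc E0 E1 s && Nat.ble E1 S && chkM k E0 E1 s.p s.r s.yL s.yU s.hL s.hU s.dU

/-- the scale of the end points -/
def U6 : ℕ := 1000000

/-- check of consecutive intervals -/
def chkAll (k : Kc) : List ℕ → Bool
  | a :: b :: L => chk k (a * U6) (b * U6) && chkAll k (b :: L)
  | _ => true

/-! ### lists of bounds -/

/-- the first `k` entries are upper bounds of `f n, f (n+1), …` -/
def UBn (f : ℕ → ℝ) : ℕ → ℕ → List ℕ → Prop
  | _, 0, _ => True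
  | _, _ + 1, [] => False
  | n, k + 1, a :: L => Ub (f n) a ∧ UBn f (n + 1) k L

/-- the first `k` entries are lower bounds of `f n, f (n+1), …` -/
def LBn (f : ℕ → ℝ) : ℕ → ℕ → List ℕ → Prop
  | _, 0, _ => True
  | _, _ + 1, [] => False
  | n, k + 1, a :: L => Lb (f n) a ∧ LBn f (n + 1) k L

/-- `[ub f (n-1), …, ub f 0]` -/
def RUB (f : ℕ → ℝ) : ℕ → List ℕ → Prop
  | 0, _ => True
  | _ + 1, [] => False
  | n + 1, a :: L => Ub (f n) a ∧ RUB f n L

theorem UBn.le {f : ℕ → ℝ} : ∀ {k k' n : ℕ} {L : List ℕ}, k' ≤ k → UBn f n k L → UBn f n k' L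
  | _, 0, _, _, _, _ => trivial
  | 0, _ + 1, _, _, h, _ => absurd h (by omega)
  | _ + 1, _ + 1, _, [], _, h => h.elim
  | _ + 1, _ + 1, _, _ :: _, h, h' => ⟨h'.1, UBn.le (by omega) h'.2⟩

theorem UBn_of {f : ℕ → ℝ} : ∀ {k n : ℕ} {L : List ℕ}, k ≤ L.length →
    (∀ i < k, Ub (f (n + i)) (L.getD i 0)) → UBn f n k L
  | 0, _, _, _, _ => trivial
  | _ + 1, _, [], h, _ => by simp at h
  | k + 1, n, a :: L, h, h' => ⟨by simpa using h' 0 (by omega), UBn_of (by simpa using h)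
      (fun i hi => by
        have := h' (i + 1) (by omega)
        rw [show n + 1 + i = n + (i + 1) by ring]
        simpa using this)⟩

theorem LBn_of {f : ℕ → ℝ} : ∀ {k n : ℕ} {L : List ℕ}, k ≤ L.length →
    (∀ i < k, Lb (f (n + i)) (L.getD i 0)) → LBn f n k L
  | 0, _, _, _, _ => trivial
  | _ + 1, _, [], h, _ => by simp at h
  | k + 1, n, a :: L, h, h' => ⟨by simpa using h' 0 (by omega), LBn_of (by simpa using h)
      (fun i hi => by
        have := h' (i + 1) (by omega)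
        rw [show n + 1 + i = n + (i + 1) by ring]
        simpa using this)⟩

theorem UBn.getD {f : ℕ → ℝ} : ∀ {k n : ℕ} {L : List ℕ}, UBn f n k L → ∀ i < k,
    Ub (f (n + i)) (L.getD i 0)
  | 0, _, _, _, i, hi => absurd hi (by omega)
  | _ + 1, _, [], h, _, _ => h.elim
  | k + 1, n, a :: L, h, 0, _ => by simpa using h.1
  | k + 1, n, a :: L, h, i + 1, hi => by
    have := UBn.getD h.2 i (by omega)
    rw [show n + (i + 1) = n + 1 + i by ring]
    simpa using this

theorem UBn.sum {f : ℕ → ℝ} : ∀ {k n : ℕ} {L : List ℕ}, UBn f n k L →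
    Ub (∑ i ∈ range k, f (n + i)) (L.take k).sum
  | 0, _, _, _ => by simp [Ub]
  | _ + 1, _, [], h => h.elim
  | k + 1, n, a :: L, h => by
    have h2 := h.1.add (UBn.sum h.2)
    have h3 : ∑ i ∈ range (k + 1), f (n + i) = f n + ∑ i ∈ range k, f (n + 1 + i) := by
      rw [Finset.sum_range_succ', add_comm, add_zero]
      congr 1
      refine Finset.sum_congr rfl fun i _ => ?_
      rw [show n + (i + 1) = n + 1 + i by ring]
    rw [h3, List.take_succ_cons, List.sum_cons]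
    exact h2

theorem LBn.sum {f : ℕ → ℝ} : ∀ {k n : ℕ} {L : List ℕ}, LBn f n k L →
    Lb (∑ i ∈ range k, f (n + i)) (L.take k).sum
  | 0, _, _, _ => by simp [Lb]
  | _ + 1, _, [], h => h.elim
  | k + 1, n, a :: L, h => by
    have h2 := h.1.add (LBn.sum h.2)
    have h3 : ∑ i ∈ range (k + 1), f (n + i) = f n + ∑ i ∈ range k, f (n + 1 + i) := by
      rw [Finset.sum_range_succ', add_comm, add_zero]
      congr 1
      refine Finset.sum_congr rfl fun i _ => ?_
      rw [show n + (i + 1) = n + 1 + i by ring]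
    rw [h3, List.take_succ_cons, List.sum_cons]
    exact h2

/-- `∑ i ≤ n, f (n - i) g (m + i)` -/
def cs (f g : ℕ → ℝ) : ℕ → ℕ → ℝ
  | 0, m => f 0 * g m
  | n + 1, m => f (n + 1) * g m + cs f g n (m + 1)

theorem cs_eq (f g : ℕ → ℝ) : ∀ n m, cs f g n m = ∑ i ∈ range (n + 1), f (n - i) * g (m + i)
  | 0, m => by simp [cs]
  | n + 1, m => by
    rw [cs, cs_eq f g n (m + 1), Finset.sum_range_succ' _ (n + 1)]
    rw [add_comm]
    congr 1
    refine Finset.sum_congr rfl fun i _ => ?_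
    rw [Nat.add_sub_add_right, show m + 1 + i = m + (i + 1) by ring]

theorem cs_eq' (f g : ℕ → ℝ) (n : ℕ) : cs f g n 0 = ∑ i ∈ range (n + 1), f i * g (n - i) := by
  rw [cs_eq, ← Finset.sum_flip]
  refine Finset.sum_congr rfl fun i hi => ?_
  rw [Finset.mem_range] at hi
  rw [zero_add, Nat.sub_sub_self (by omega)]

theorem dot_sound {f g : ℕ → ℝ} : ∀ {n m : ℕ} {rev Y : List ℕ}, RUB f (n + 1) rev →
    UBn g m (n + 1) Y → (∀ i, m ≤ i → i ≤ m + n → 0 ≤ g i) →
    cs f g n m * S * S ≤ dot rev Y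
  | _, _, [], _, h, _, _ => h.elim
  | _, _, _ :: _, [], _, h, _ => h.elim
  | 0, m, a :: L, b :: M, hf, hg, h0 => by
    have h1 := hf.1
    have h2 := hg.1
    have h3 := h0 m le_rfl (by omega)
    unfold Ub at h1 h2
    simp only [cs, dot]
    push_cast
    have h4 : f 0 * g m * S * S = (f 0 * S) * (g m * S) := by ring
    rw [h4]
    have h5 : (f 0 * S) * (g m * S) ≤ a * b :=
      mul_le_mul h1 h2 (mul_nonneg h3 S_pos.le) (Nat.cast_nonneg _)
    have h6 : (0 : ℝ) ≤ dot L M := Nat.cast_nonneg _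
    linarith
  | n + 1, m, a :: L, b :: M, hf, hg, h0 => by
    have h1 := hf.1
    have h2 := hg.1
    have h3 := h0 m le_rfl (by omega)
    have ih := dot_sound hf.2 hg.2 (fun i hi hi' => h0 i (by omega) (by omega))
    unfold Ub at h1 h2
    simp only [cs, dot]
    push_cast
    have h4 : (f (n + 1) * g m + cs f g n (m + 1)) * S * S =
        (f (n + 1) * S) * (g m * S) + cs f g n (m + 1) * S * S := by ring
    rw [h4]
    have h5 : (f (n + 1) * S) * (g m * S) ≤ a * b :=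
      mul_le_mul h1 h2 (mul_nonneg h3 S_pos.le) (Nat.cast_nonneg _)
    linarith

theorem dot_Ub {f g : ℕ → ℝ} {n : ℕ} {rev Y : List ℕ} (hf : RUB f (n + 1) rev)
    (hg : UBn g 0 (n + 1) Y) (h0 : ∀ i ≤ n, 0 ≤ g i) :
    Ub (cs f g n 0) (dot rev Y / S + 1) := by
  have h := dot_sound hf hg (fun i _ hi => h0 i (by omega))
  have hS := S_pos
  unfold Ub
  refine le_trans ?_ (le_cdiv _ _ (by norm_num [S]))
  rw [le_div_iff₀ hS]
  exact h

/-! ### the sequence `P` -/

section P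

variable {e : ℝ} {E1 p r : ℕ}

theorem PK_step (he1 : Ub e E1) (hE : E1 ≤ S) {n Pi kap : ℕ} (h1 : Lb (PK e n).1 Pi)
    (h2 : Lb (PK e n).2 kap) :
    Lb (PK e (n + 1)).1 (Pi * (((2 * n + 1) * S - E1) * ((2 * n + 2) * S - E1)) /
      ((2 * n + 1) * (2 * n + 2) * S * S)) ∧
    Lb (PK e (n + 1)).2 (kap + Pi * ((4 * n + 3) * S - E1) /
      ((2 * n + 1) * (2 * n + 2) * S)) := by
  have hS := S_pos
  have ha : (0 : ℝ) < 2 * n + 1 := by positivity
  have hb : (0 : ℝ) < 2 * n + 2 := by positivity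
  have hE1 : (E1 : ℝ) ≤ S := by exact_mod_cast hE
  have s1 : (((2 * n + 1) * S - E1 : ℕ) : ℝ) = (2 * n + 1) * S - E1 := by
    rw [Nat.cast_sub (by nlinarith)]
    push_cast
    ring
  have s2 : (((2 * n + 2) * S - E1 : ℕ) : ℝ) = (2 * n + 2) * S - E1 := by
    rw [Nat.cast_sub (by nlinarith)]
    push_cast
    ring
  have s3 : (((4 * n + 3) * S - E1 : ℕ) : ℝ) = (4 * n + 3) * S - E1 := by
    rw [Nat.cast_sub (by nlinarith)]
    push_cast
    ring
  have hPi : 0 ≤ (PK e n).1 := h1.nonneg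
  have he1' := he1.le_div
  unfold Ub Lb at *
  have p1 : (0 : ℝ) ≤ (2 * n + 1) * S - E1 := by nlinarith [(Nat.cast_nonneg n : (0 : ℝ) ≤ n)]
  have p2 : (0 : ℝ) ≤ (2 * n + 2) * S - E1 := by nlinarith [(Nat.cast_nonneg n : (0 : ℝ) ≤ n)]
  have p3 : (0 : ℝ) ≤ (4 * n + 3) * S - E1 := by nlinarith [(Nat.cast_nonneg n : (0 : ℝ) ≤ n)]
  constructor
  · refine (cdiv_le _ _).trans ?_
    rw [Nat.cast_mul, Nat.cast_mul, s1, s2]
    push_cast
    rw [div_le_iff₀ (by positivity)]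
    have h3 : (PK e (n + 1)).1 = (PK e n).1 * ((1 - e / (2 * n + 1)) * (1 - e / (2 * n + 2))) := rfl
    rw [h3]
    have h4 : (PK e n).1 * ((1 - e / (2 * n + 1)) * (1 - e / (2 * n + 2))) * S *
        ((2 * n + 1) * (2 * n + 2) * S * S) =
        ((PK e n).1 * S) * (((2 * n + 1) * S - e * S) * ((2 * n + 2) * S - e * S)) := by
      field_simp
    rw [h4]
    refine mul_le_mul h1 ?_ (by positivity) (by positivity)
    exact mul_le_mul (by linarith) (by linarith) p2 (by linarith)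
  · rw [Nat.cast_add]
    have h3 : (PK e (n + 1)).2 = (PK e n).2 + (PK e n).1 *
        (1 / (2 * n + 1) + 1 / (2 * n + 2) - e / ((2 * n + 1) * (2 * n + 2))) := rfl
    rw [h3, add_mul (PK e n).2]
    refine add_le_add h2 ?_
    refine (cdiv_le _ _).trans ?_
    rw [Nat.cast_mul, s3]
    push_cast
    rw [div_le_iff₀ (by positivity)]
    have h4 : (PK e n).1 * (1 / (2 * n + 1) + 1 / (2 * n + 2) - e / ((2 * n + 1) * (2 * n + 2))) * S *
        ((2 * n + 1) * (2 * n + 2) * S) =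
        ((PK e n).1 * S) * ((4 * n + 3) * S - e * S) := by
      field_simp
      ring
    rw [h4]
    exact mul_le_mul h1 (by linarith) p3 (by positivity)

theorem PC_step (hp : Ub (PC e 0) p) (hr : Lb ((1 + e) * Bb e) r) {n P kap : ℕ}
    (hP : Ub (PC e n) P) (hk : Lb (PK e (n + 1)).2 kap) :
    Ub (PC e (n + 1)) ((P * ((2 * (n + 2)) * (2 * n + 3)) + 2 * p - r * kap / S) /
      ((2 * (n + 2)) * (2 * n + 3)) + 1) := by
  have hS := S_pos
  have hD : (0 : ℝ) < (2 * (n + 2)) * (2 * n + 3) := by positivity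
  have h0 : (Bb e + (Bb e - 1) / e) = 2 * PC e 0 := by
    change _ = 2 * ((Bb e + (Bb e - 1) / e) / 2)
    ring
  have h1 : PC e (n + 1) = PC e n - 1 / ((2 * (n + 2)) * (2 * (n + 2) - 1)) *
      ((1 + e) * Bb e * (PK e (n + 1)).2 - (Bb e + (Bb e - 1) / e)) := rfl
  have h2 := hr.mul hk
  have hle : PC e (n + 1) * S ≤ ((P * ((2 * (n + 2)) * (2 * n + 3)) + 2 * p - r * kap / S : ℕ) : ℝ) /
      (((2 * (n + 2)) * (2 * n + 3) : ℕ) : ℝ) := by
    rw [h1, h0]
    push_cast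
    rw [le_div_iff₀ hD]
    have h3 : (P : ℝ) * ((2 * (n + 2)) * (2 * n + 3)) + 2 * p - ((r * kap / S : ℕ) : ℝ) ≤
        ((P * ((2 * (n + 2)) * (2 * n + 3)) + 2 * p - r * kap / S : ℕ) : ℝ) := by
      have h4 : P * ((2 * (n + 2)) * (2 * n + 3)) + 2 * p ≤
          (P * ((2 * (n + 2)) * (2 * n + 3)) + 2 * p - r * kap / S) + r * kap / S := by omega
      have h5 : ((P * ((2 * (n + 2)) * (2 * n + 3)) + 2 * p : ℕ) : ℝ) ≤
          (((P * ((2 * (n + 2)) * (2 * n + 3)) + 2 * p - r * kap / S) + r * kap / S : ℕ) : ℝ) := by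
        exact_mod_cast h4
      rw [Nat.cast_add _ (r * kap / S)] at h5
      push_cast at h5
      linarith
    refine le_trans ?_ h3
    unfold Ub Lb at *
    have h6 : (PC e n - 1 / ((2 * ((n : ℝ) + 2)) * (2 * (n + 2) - 1)) *
      ((1 + e) * Bb e * (PK e (n + 1)).2 - 2 * PC e 0)) * S * ((2 * (n + 2)) * (2 * n + 3)) =
      (PC e n * S) * ((2 * (n + 2)) * (2 * n + 3)) + 2 * (PC e 0 * S) -
        (1 + e) * Bb e * (PK e (n + 1)).2 * S := by
      have h7 : (2 * ((n : ℝ) + 2) - 1) = 2 * n + 3 := by ring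
      rw [h7]
      field_simp
      ring
    rw [h6]
    have h8 := mul_le_mul_of_nonneg_right hP hD.le
    linarith
  refine hle.trans (le_cdiv _ _ (by positivity))

theorem pList_sound (he1 : Ub e E1) (hE : E1 ≤ S) (hp : Ub (PC e 0) p)
    (hr : Lb ((1 + e) * Bb e) r) {x : ℝ} (hx : 0 ≤ x) :
    ∀ {k n Pi kap P : ℕ} {xs : List ℕ}, UBn (fun i => x ^ i) n k xs → Lb (PK e n).1 Pi →
    Lb (PK e n).2 kap → Ub (PC e n) P →
    UBn (fun i => PC e i * x ^ i) n k (pList E1 p r xs n Pi kap P)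
  | 0, _, _, _, _, _, _, _, _, _ => trivial
  | _ + 1, _, _, _, _, [], h, _, _, _ => h.elim
  | k + 1, n, Pi, kap, P, a :: xs, h, h1, h2, h3 => by
    obtain ⟨s1, s2⟩ := PK_step he1 hE h1 h2
    have s3 := PC_step hp hr h3 s2
    exact ⟨h3.mul h.1 (pow_nonneg hx n), pList_sound he1 hE hp hr hx h.2 s1 s2 s3⟩

end P

end Pool.Agent.H58.Tal.R1c
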